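import Mathlib

/-!
# Pseudocompact abelian groups: definitions and tasks

Plan (helper376) for the full answer to MP_f23337_gt: every abelian group with a pseudocompact
group topology has a group topology in which every sequence of nonempty open sets has a selection
contained in a compact metrizable set.
-/

set_option autoImplicit false

universe u

namespace Pool.Agent.H376R3.PC

open Cardinal Topology

/-- `L` meets every nonempty `G_delta` set. -/
def GdDense {K : Type*} [TopologicalSpace K] (L : Set K) : Prop :=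
  ∀ S : Set K, IsGδ S → S.Nonempty → (S ∩ L).Nonempty

/-- `Q` is a closed `G_delta` subgroup. -/
def GdSub {K : Type*} [AddCommGroup K] [TopologicalSpace K] (Q : AddSubgroup K) : Prop :=
  IsClosed (Q : Set K) ∧ IsGδ (Q : Set K)

/-- There is a family of at most `κ` functions `J → ℕ` such that every countable subset of `J` is
mapped injectively by a member of the family. -/
def InjFam (J : Type u) (κ : Cardinal.{u}) : Prop :=
  ∃ (Δ : Type u) (d : Δ → J → ℕ), #Δ ≤ κ ∧ ∀ A : Set J, A.Countable → ∃ δ, Set.InjOn (d δ) A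

/-- The elements of order `p` (or `1`) that are divisible by `p ^ k`. -/
def V {G : Type u} [AddCommGroup G] (p k : ℕ) : Set G :=
  {x | p • x = 0 ∧ ∃ g, x = p ^ k • g}

/-- TASK PC1: the completion of a pseudocompact group is compact and the group is
`G_delta`-dense in it. -/
def TaskPC1 : Prop :=
  ∀ (G : Type u) [AddCommGroup G] [TopologicalSpace G] [IsTopologicalAddGroup G] [T2Space G],
    (∀ f : G → ℝ, Continuous f → ∃ C : ℝ, ∀ x, |f x| ≤ C) →
    ∃ (K : Type u) (_ : AddCommGroup K) (_ : TopologicalSpace K) (_ : IsTopologicalAddGroup K)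
      (_ : CompactSpace K) (_ : T2Space K) (ι : G →+ K),
      Function.Injective ι ∧ GdDense (Set.range ι)

/-- TASK PC2: by the theorem of Mycielski (`Pool.Agent.Helper520.CD.mycielski`) in a metrizable
quotient of `K`. -/
def TaskPC2 : Prop :=
  ∀ (K : Type u) [AddCommGroup K] [TopologicalSpace K] [IsTopologicalAddGroup K] [CompactSpace K]
    [T2Space K] (f : ℕ → ℕ), (∀ i, (Set.range fun x : K => f i • x).Infinite) →
    ∃ (Q : AddSubgroup K) (h : (ℕ → Bool) → K), GdSub Q ∧
      ∀ b b', b ≠ b' → ∀ i, f i • (h b - h b') ∉ Q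

/-- TASK PC3. -/
def TaskPC3 : Prop :=
  ∀ (K : Type u) [AddCommGroup K] [TopologicalSpace K] [IsTopologicalAddGroup K] [CompactSpace K]
    [T2Space K] [Infinite K] (L : Set K), GdDense L →
    ∃ J : Type u, ℵ₁ ≤ #J ∧ #K ≤ 2 ^ #J ∧ InjFam J #L

/-- TASK PC4: heights and cyclic subgroups in an abelian group. -/
def TaskPC4 : Prop :=
  ∀ (G : Type u) [AddCommGroup G] (p h : ℕ), p.Prime →
    ∃ (B : Type u) (κ : B → ℕ) (b : B → G),
      (∀ w, κ w < h) ∧ (∀ w, p ^ (κ w + 1) • b w = 0) ∧
      (∀ (c : B →₀ ℤ) (m : ℕ), m ≤ h → (∃ g : G, (c.sum fun w n => n • b w) = p ^ m • g) →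
        ∀ w, ((p ^ min m (κ w + 1) : ℕ) : ℤ) ∣ c w) ∧
      (∀ x : G, p • x = 0 → ∃ (c : B →₀ ℤ) (g : G), p ^ h • g ∈ V (G := G) p h ∧
        x = (c.sum fun w n => (n * p ^ κ w) • b w) + p ^ h • g) ∧
      (∀ k, #{w // κ w = k} ≤ #(V (G := G) p k)) ∧
      (∀ k < h, ℵ₀ < #(V (G := G) p k) → #(V (G := G) p (k + 1)) < #(V (G := G) p k) →
        #{w // κ w = k} = #(V (G := G) p k))

/-- TASK PC5: large independent families. -/
def TaskPC5 : Prop :=
  ∀ (G K : Type u) [AddCommGroup G] [AddCommGroup K] [TopologicalSpace K]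
    [IsTopologicalAddGroup K] [CompactSpace K] [T2Space K] (ι : G →+ K),
    Function.Injective ι → GdDense (Set.range ι) → (∀ n : ℕ, 0 < n → ∃ x : G, n • x ≠ 0) →
    ∃ (M : Type u) (e : M → G) (n : ℕ) (J : Type u), LinearIndependent ℤ e ∧ 0 < n ∧
      ℵ₁ ≤ #J ∧ 𝔠 ≤ #M ∧ #(Set.range fun x : G => n • x) ≤ 2 ^ #J ∧ InjFam J #M

end Pool.Agent.H376R3.PC
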