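import Pool.Agent.H376R3.PC.Zorn

/-!
# Assembly of a group topology from homomorphisms to powers of the circle
-/

set_option autoImplicit false

universe u

namespace Pool.Agent.H376R3.PC

open Cardinal Topology

/-- A homomorphism to a power of the circle together with a family of compact sets hitting its
image. -/
structure Piece (G : Type u) [AddCommGroup G] where
  X : Type u
  j : G →+ (X → T)
  Ξ : Type u
  S : Ξ → (ℕ → Bool) → G
  cont : ∀ ξ a, Continuous fun t => j (S ξ t) a
  hit : ∀ A : Set X, A.Countable → ∀ x : ℕ → G,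
    ∃ ξ, ∀ m, ∃ t, ∀ a ∈ A, j (S ξ t) a = j (x m) a

/-- the trivial piece -/
noncomputable def Piece.triv (G : Type u) [AddCommGroup G] : Piece G where
  X := PEmpty
  j := 0
  Ξ := PUnit
  S := fun _ _ => 0
  cont := fun _ a => a.elim
  hit := fun _ _ _ => ⟨PUnit.unit, fun _ => ⟨fun _ => false, fun a _ => a.elim⟩⟩

theorem assembly {G : Type u} [AddCommGroup G] {I : Type} [Fintype I] (P : I → Piece G)
    (hcross : ∀ i i', i ≠ i' → ∀ ξ t, (P i').j ((P i).S ξ t) = 0)
    (X0 : Type u) (j0 : G →+ (X0 → T)) (R : Set G) (hR : R.Finite)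
    (hR2 : ∀ x, ∃ r ∈ R, j0 r = j0 x) (h0 : ∀ i ξ t, j0 ((P i).S ξ t) = 0)
    (hinj : ∀ x, (∀ i, (P i).j x = 0) → j0 x = 0 → x = 0) :
    ∃ τ : TopologicalSpace G, @IsTopologicalAddGroup G τ _ ∧ @T2Space G τ ∧
      ∀ U : ℕ → Set G, (∀ n, IsOpen[τ] (U n)) → (∀ n, (U n).Nonempty) →
        ∃ f : (ℕ → Bool) → G, @Continuous _ _ _ τ f ∧ ∀ n, ∃ z, f z ∈ U n := by
  classical
  let Y : Type u := (Σ i, (P i).X) ⊕ X0
  let F : G →+ (Y → T) :=
    { toFun := fun x y => Sum.elim (fun a : Σ i, (P i).X => (P a.1).j x a.2) (fun a => j0 x a) y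
      map_zero' := by
        funext y
        rcases y with ⟨i, a⟩ | a <;> simp
      map_add' := by
        intro x x'
        funext y
        rcases y with ⟨i, a⟩ | a <;> simp }
  have hF1 : ∀ x i a, F x (Sum.inl ⟨i, a⟩) = (P i).j x a := fun _ _ _ => rfl
  have hF2 : ∀ x a, F x (Sum.inr a) = j0 x a := fun _ _ => rfl
  have hFi : Function.Injective F := by
    rw [injective_iff_map_eq_zero]
    intro x hx
    apply hinj x
    · intro i
      funext a
      rw [← hF1 x i a, hx]; rfl
    · funext a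
      rw [← hF2 x a, hx]; rfl
  let τ : TopologicalSpace G := TopologicalSpace.induced F inferInstance
  have hind : IsInducing F := ⟨rfl⟩
  have hemb : IsEmbedding F := ⟨hind, hFi⟩
  refine ⟨τ, topologicalAddGroup_induced F, hemb.t2Space, ?_⟩
  intro U hU hUne
  choose x hx using hUne
  have hO : ∀ n, ∃ Fn : Finset Y, ∀ y, (∀ a ∈ Fn, F y a = F (x n) a) → y ∈ U n := by
    intro n
    obtain ⟨O, hO, hOU⟩ := isOpen_induced_iff.1 (hU n)
    have hxO : F (x n) ∈ O := by
      have : x n ∈ F ⁻¹' O := by rw [hOU]; exact hx n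
      exact this
    obtain ⟨Fn, u, hu, hsub⟩ := isOpen_pi_iff.1 hO (F (x n)) hxO
    refine ⟨Fn, fun y hy => ?_⟩
    rw [← hOU]
    apply hsub
    intro a ha
    rw [hy a ha]
    exact (hu a ha).2
  choose Fn hFn using hO
  let A : Set Y := ⋃ n, (↑(Fn n) : Set Y)
  have hA : A.Countable := Set.countable_iUnion fun n => (Fn n).countable_toSet
  choose r hrR hr0 using fun m => hR2 (x m)
  have hξ : ∀ i, ∃ ξ, ∀ m, ∃ t, ∀ a, (Sum.inl ⟨i, a⟩ : Y) ∈ A →
      (P i).j ((P i).S ξ t) a = (P i).j (x m - r m) a := by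
    intro i
    obtain ⟨ξ, hξ⟩ := (P i).hit {a | (Sum.inl ⟨i, a⟩ : Y) ∈ A}
      (hA.preimage (f := fun a => (Sum.inl ⟨i, a⟩ : Y)) (by
        intro a b hab
        have h1 := Sum.inl.inj hab
        exact eq_of_heq (Sigma.mk.inj h1).2)) (fun m => x m - r m)
    exact ⟨ξ, fun m => by
      obtain ⟨t, ht⟩ := hξ m
      exact ⟨t, fun a ha => ht a ha⟩⟩
  choose ξ hξ using hξ
  let : TopologicalSpace R := ⊥
  have : DiscreteTopology R := ⟨rfl⟩
  have : Finite R := hR
  obtain ⟨r0, hr0', -⟩ := hR2 0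
  have : Nonempty R := ⟨⟨r0, hr0'⟩⟩
  let Z : Type u := R × (I → ℕ → Bool)
  let : MetricSpace Z := TopologicalSpace.metrizableSpaceMetric Z
  obtain ⟨q, hq, hqs⟩ := exists_nat_bool_continuous_surjective_of_compact Z
  let f : Z → G := fun z => (z.1 : G) + ∑ i, (P i).S (ξ i) (z.2 i)
  have hfi : ∀ (z : Z) i a, F (f z) (Sum.inl ⟨i, a⟩) =
      (P i).j (z.1 : G) a + (P i).j ((P i).S (ξ i) (z.2 i)) a := by
    intro z i a
    rw [hF1]
    simp only [f, map_add, map_sum, Pi.add_apply, Finset.sum_apply]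
    congr 1
    rw [Finset.sum_eq_single i]
    · intro i' _ hne
      rw [hcross i' i hne]; rfl
    · intro h; exact absurd (Finset.mem_univ i) h
  have hf0 : ∀ (z : Z) a, F (f z) (Sum.inr a) = j0 (z.1 : G) a := by
    intro z a
    rw [hF2]
    simp only [f, map_add, map_sum, Pi.add_apply, Finset.sum_apply]
    rw [Finset.sum_eq_zero]
    · simp
    · intro i _
      rw [h0]; rfl
  have hfc : Continuous f := by
    rw [hind.continuous_iff]
    refine continuous_pi fun y => ?_
    rcases y with ⟨i, a⟩ | a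
    · have h1 : (fun z : Z => F (f z) (Sum.inl ⟨i, a⟩)) = fun z : Z =>
          (P i).j (z.1 : G) a + (P i).j ((P i).S (ξ i) (z.2 i)) a := funext fun z => hfi z i a
      show Continuous fun z : Z => F (f z) (Sum.inl ⟨i, a⟩)
      rw [h1]
      refine Continuous.add ?_ ?_
      · have h2 : Continuous fun y : R => (P i).j (y : G) a := continuous_of_discreteTopology
        exact h2.comp continuous_fst
      · have h2 := (P i).cont (ξ i) a
        exact h2.comp ((continuous_apply i).comp continuous_snd)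
    · show Continuous fun z : Z => F (f z) (Sum.inr a)
      have h1 : (fun z : Z => F (f z) (Sum.inr a)) = fun z : Z => j0 (z.1 : G) a :=
        funext fun z => hf0 z a
      rw [h1]
      have h2 : Continuous fun y : R => j0 (y : G) a := continuous_of_discreteTopology
      exact h2.comp continuous_fst
  refine ⟨fun z => f (q z), hfc.comp hq, fun n => ?_⟩
  choose t ht using fun i => hξ i n
  obtain ⟨z, hz⟩ := hqs (⟨r n, hrR n⟩, t)
  refine ⟨z, ?_⟩
  show f (q z) ∈ U n
  rw [hz]
  apply hFn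
  intro y hy
  have hyA : y ∈ A := Set.mem_iUnion.2 ⟨n, hy⟩
  rcases y with ⟨i, a⟩ | a
  · rw [hfi, ht i a hyA, hF1]
    simp
  · rw [hf0, hF2]
    exact congrFun (hr0 n) a

end Pool.Agent.H376R3.PC
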