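import Pool.Agent.H376R3.PC.Defs

/-!
# Homomorphisms to powers of the circle; the circle: elements of given order, Cantor surjections
-/

set_option autoImplicit false

universe u v

namespace Pool.Agent.H376R3.PC

open Cardinal Topology

/-- the circle group -/
abbrev T : Type := AddCircle (1 : ℝ)

/-- Extension of homomorphisms to powers of the circle. -/
theorem exists_ext {G P : Type*} {X : Type*} [AddCommGroup G] [AddCommGroup P] (Φ : P →+ G)
    (Ψ : P →+ (X → T)) (h : ∀ x, Φ x = 0 → Ψ x = 0) :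
    ∃ j : G →+ (X → T), ∀ x, j (Φ x) = Ψ x := by
  have hB : Module.Baer ℤ T := Module.Baer.of_divisible T
  have key : ∀ a : X, ∃ χ : G →+ T, ∀ x, χ (Φ x) = Ψ x a := by
    intro a
    let g : (P ⧸ Φ.ker) →+ T := QuotientAddGroup.lift Φ.ker ((Pi.evalAddMonoidHom (fun _ => T) a).comp Ψ)
      (fun x hx => by
        have : Ψ x = 0 := h x hx
        simp [this])
    obtain ⟨χ, hχ⟩ := hB.extension_property_addMonoidHom (QuotientAddGroup.kerLift Φ)
      (QuotientAddGroup.kerLift_injective Φ) g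
    refine ⟨χ, fun x => ?_⟩
    have := DFunLike.congr_fun hχ (QuotientAddGroup.mk x)
    simpa [g] using this
  choose χ hχ using key
  refine ⟨{ toFun := fun x a => χ a x, map_zero' := ?_, map_add' := ?_ }, fun x => ?_⟩
  · ext a; simp
  · intro x y; ext a; simp
  · ext a; exact hχ a x

/-- An element of order `n` of the circle (of infinite order for `n = 0`). -/
theorem exists_tau (n : ℕ) : ∃ τ : T, n • τ = 0 ∧ ∀ m : ℤ, m • τ = 0 → (n : ℤ) ∣ m := by
  rcases Nat.eq_zero_or_pos n with rfl | hn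
  · refine ⟨((Real.sqrt 2 : ℝ) : AddCircle (1 : ℝ)), by simp, ?_⟩
    intro m hm
    by_contra h0
    have hm0 : m ≠ 0 := by
      intro h; exact h0 (by simp [h])
    rw [← AddCircle.coe_zsmul, AddCircle.coe_eq_zero_iff] at hm
    obtain ⟨k, hk⟩ := hm
    have hirr := irrational_sqrt_two
    apply hirr
    refine ⟨(k : ℚ) / m, ?_⟩
    have hm' : (m : ℝ) ≠ 0 := by exact_mod_cast hm0
    push_cast
    rw [div_eq_iff hm']
    simp only [zsmul_eq_mul, mul_one] at hk
    rw [hk]; ring
  · have h1 : addOrderOf (((1 : ℝ) / n : ℝ) : AddCircle (1 : ℝ)) = n :=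
      AddCircle.addOrderOf_period_div hn
    refine ⟨(((1 : ℝ) / n : ℝ) : AddCircle (1 : ℝ)), ?_, ?_⟩
    · have := addOrderOf_nsmul_eq_zero (((1 : ℝ) / n : ℝ) : AddCircle (1 : ℝ))
      rwa [h1] at this
    · intro m hm
      have := addOrderOf_dvd_iff_zsmul_eq_zero.2 hm
      rwa [h1] at this

/-- The `n`-torsion of the circle is a continuous image of the Cantor set. -/
theorem exists_cantor (n : ℕ) : ∃ q : (ℕ → Bool) → T, Continuous q ∧ (∀ z, n • q z = 0) ∧
    ∀ x : T, n • x = 0 → ∃ z, q z = x := by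
  have hcl : IsClosed {x : T | n • x = 0} := isClosed_eq (by fun_prop) continuous_const
  have : CompactSpace {x : T | n • x = 0} := isCompact_iff_compactSpace.1 hcl.isCompact
  have : Nonempty {x : T | n • x = 0} := ⟨⟨0, by simp⟩⟩
  obtain ⟨f, hf, hs⟩ := exists_nat_bool_continuous_surjective_of_compact {x : T | n • x = 0}
  refine ⟨fun z => (f z).1, continuous_subtype_val.comp hf, fun z => (f z).2, ?_⟩
  intro x hx
  obtain ⟨z, hz⟩ := hs ⟨x, hx⟩
  exact ⟨z, by simp [hz]⟩

end Pool.Agent.H376R3.PC
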