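import Pool.Agent.H376R3.PC.Prime
import Pool.Agent.H990R4.PC1
import Pool.Agent.H973R3.PC2
import Pool.Agent.H345R3.PC3
import Pool.Agent.H526R3.PC5

/-!
# The final topology
-/

set_option autoImplicit false

universe u

namespace Pool.Agent.H376R3.PC

open Cardinal Topology

theorem cont_le_dense {K : Type u} [AddCommGroup K] [TopologicalSpace K]
    [IsTopologicalAddGroup K] [CompactSpace K] [T2Space K] [Infinite K] (L : Set K)
    (hL : GdDense L) : 𝔠 ≤ #L := by
  have h1 : ∀ i : ℕ, (Set.range fun x : K => (fun _ : ℕ => 1) i • x).Infinite := by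
    intro i
    have : (Set.range fun x : K => (fun _ : ℕ => 1) i • x) = Set.univ := by
      ext x; simp
    rw [this]; exact Set.infinite_univ
  obtain ⟨Q, h, hQ, hh⟩ := Pool.Agent.H973R3.PC2.pc2 K (fun _ => 1) h1
  have h2 : ∀ b, ∃ y : L, (y : K) - h b ∈ Q := by
    intro b
    obtain ⟨y, hy1, hy2⟩ := hL ((fun y : K => y - h b) ⁻¹' (Q : Set K))
      (hQ.2.preimage (by fun_prop)) ⟨h b, by simp⟩
    exact ⟨⟨y, hy2⟩, hy1⟩
  choose y hy using h2
  have hinj : Function.Injective y := by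
    intro b b' hbb
    by_contra hne
    apply hh b b' hne 0
    have h3 := Q.sub_mem (hy b') (hy b)
    rw [hbb] at h3
    simpa using h3
  have h4 := Cardinal.mk_le_of_injective (f := fun b : ULift.{u} (ℕ → Bool) => y b.down)
    (fun a b hab => ULift.down_injective (hinj hab))
  simpa using h4

theorem hypA_of {G K : Type u} [AddCommGroup G] [AddCommGroup K] [TopologicalSpace K]
    [IsTopologicalAddGroup K] [CompactSpace K] [T2Space K] (ι : G →+ K)
    (hι : Function.Injective ι) (hd : GdDense (Set.range ι)) : HypA G := by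
  intro n hn hinf
  let f : K →+ K := nsmulAddMonoidHom n
  have hfc : Continuous f := by
    show Continuous fun x : K => n • x
    fun_prop
  have hcomp : IsCompact (f.range : Set K) := by
    rw [AddMonoidHom.coe_range]
    exact isCompact_range hfc
  have : CompactSpace f.range := isCompact_iff_compactSpace.1 hcomp
  let π : K → f.range := fun x => ⟨n • x, x, rfl⟩
  have hπ : Continuous π := Continuous.subtype_mk (by fun_prop) _
  let g : (Set.range fun x : G => n • x) → f.range := fun y => ⟨ι y.1, by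
    obtain ⟨y, x, rfl⟩ := y
    exact ⟨ι x, by simp [f]⟩⟩
  have hg : Function.Injective g := by
    intro a b hab
    have : ι a.1 = ι b.1 := congrArg Subtype.val hab
    exact Subtype.ext (hι this)
  have hi : Infinite (Set.range fun x : G => n • x) := hinf.to_subtype
  have : Infinite f.range := Infinite.of_injective g hg
  have hL : GdDense (Set.range g) := by
    intro S hS hne
    obtain ⟨y, hy1, hy2⟩ := hd (π ⁻¹' S) (hS.preimage hπ) (by
      obtain ⟨z, hz⟩ := hne
      obtain ⟨z, x, rfl⟩ := z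
      exact ⟨x, hz⟩)
    obtain ⟨y, rfl⟩ := hy2
    refine ⟨π (ι y), hy1, ⟨⟨n • y, y, rfl⟩, ?_⟩⟩
    apply Subtype.ext
    show ι (n • y) = n • ι y
    rw [map_nsmul]
  have hcard : #(Set.range g) = #(Set.range fun x : G => n • x) := Cardinal.mk_range_eq g hg
  have h1 := cont_le_dense (Set.range g) hL
  obtain ⟨J, hJ1, hJ2, hJ3⟩ := Pool.Agent.H345R3.PC3.pc3 f.range (Set.range g) hL
  rw [hcard] at h1 hJ3
  refine ⟨h1, J, hJ1, ?_, hJ3⟩
  exact (Cardinal.mk_le_of_injective hg).trans hJ2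

/-- the conclusion -/
def Concl (G : Type u) [AddCommGroup G] : Prop :=
  ∃ τ : TopologicalSpace G, @IsTopologicalAddGroup G τ _ ∧ @T2Space G τ ∧
      ∀ U : ℕ → Set G, (∀ n, IsOpen[τ] (U n)) → (∀ n, (U n).Nonempty) →
        ∃ f : (ℕ → Bool) → G, @Continuous _ _ _ τ f ∧ ∀ n, ∃ z, f z ∈ U n

theorem concl_unbounded {G : Type u} [AddCommGroup G] (hA : HypA G) (M : Type u) (e : M → G)
    (n0 : ℕ) (J : Type u) (he : LinearIndependent ℤ e) (hn0 : 0 < n0) (hJ : ℵ₁ ≤ #J)
    (hM : 𝔠 ≤ #M) (hcard : #(Set.range fun x : G => n0 • x) ≤ 2 ^ #J) (hfam : InjFam J #M) :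
    Concl G := by
  classical
  obtain ⟨N, hN, hmin⟩ : ∃ N : ℕ, 0 < N ∧ ∀ n : ℕ, 0 < n →
      #(Set.range fun x : G => N • x) ≤ #(Set.range fun x : G => n • x) := by
    obtain ⟨c, ⟨N, hN, rfl⟩, hc⟩ := Cardinal.lt_wf.has_min
      {c | ∃ n : ℕ, 0 < n ∧ c = #(Set.range fun x : G => n • x)} ⟨_, 1, one_pos, rfl⟩
    exact ⟨N, hN, fun n hn => not_lt.1 (hc _ ⟨n, hn, rfl⟩)⟩
  obtain ⟨D, E0, I, hI, P, hE1, hE2, hP1, hP2, hP3, hDE, hess, hDinj, -⟩ := prime_part hA N hN
  let e' : M → E0 := fun m => ⟨N • e m, hE1 _⟩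
  have he' : LinearIndependent ℤ e' := by
    rw [linearIndependent_iff]
    intro l hl
    have h1 : Finsupp.linearCombination ℤ e ((N : ℤ) • l) = 0 := by
      rw [map_smul]
      have h2 := congrArg (fun z : E0 => (z : G)) hl
      simp only [Finsupp.linearCombination_apply, Finsupp.sum, AddSubgroup.val_finsetSum,
        AddSubgroup.coe_zsmul, ZeroMemClass.coe_zero, e'] at h2
      rw [Finsupp.linearCombination_apply, Finsupp.sum, Finset.smul_sum, ← h2]
      apply Finset.sum_congr rfl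
      intro m _
      rw [smul_comm, natCast_zsmul]
    have h2 := (linearIndependent_iff.1 he) _ h1
    have hN' : (N : ℤ) ≠ 0 := by exact_mod_cast hN.ne'
    ext m
    have h3 := DFunLike.congr_fun h2 m
    have h4 : (N : ℤ) * l m = 0 := by simpa using h3
    exact (mul_eq_zero.1 h4).resolve_left hN'
  have hNe : #M ≤ #(Set.range fun x : G => N • x) :=
    Cardinal.mk_le_of_injective (f := fun m => ⟨N • e m, e m, rfl⟩) (by
      intro m m' hmm
      have h1 : e' m = e' m' := Subtype.ext (Subtype.mk.inj hmm)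
      exact he'.injective h1)
  have hE3 : #E0 ≤ 2 ^ #J := by
    refine hE2.trans ?_
    rw [max_eq_right (Cardinal.aleph0_le_continuum.trans (hM.trans hNe))]
    exact (hmin n0 hn0).trans hcard
  obtain ⟨X, φ, Ξ, s, hφ, hφc, hφh⟩ := type0_lemma pc6 e' he' hJ hfam hM hE3
  let Φ : D × E0 →+ G := D.subtype.coprod E0.subtype
  let Ψ : D × E0 →+ (X → T) := φ.comp (AddMonoidHom.snd _ _)
  obtain ⟨j0, hj0⟩ := exists_ext Φ Ψ (by
    rintro ⟨d, x⟩ h
    have h1 : (d : G) + (x : G) = 0 := h
    have h2 := hDE d d.2 x x.2 h1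
    rw [h2, zero_add] at h1
    have h3 : x = 0 := Subtype.ext h1
    show φ x = 0
    rw [h3, map_zero])
  have hj0D : ∀ d ∈ D, j0 d = 0 := by
    intro d hd
    have := hj0 (⟨d, hd⟩, 0)
    simpa [Φ, Ψ] using this
  have hj0E : ∀ x : E0, j0 (x : G) = φ x := by
    intro x
    have := hj0 (0, x)
    simpa [Φ, Ψ] using this
  let P0 : Piece G :=
    { X := X
      j := j0
      Ξ := Ξ
      S := fun ξ t => (e' (s ξ t) : G)
      cont := by
        intro ξ a
        simp only [hj0E]
        exact hφc ξ a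
      hit := by
        intro A hA x
        obtain ⟨ξ, hξ⟩ := hφh A hA (fun m => j0 (x m))
        refine ⟨ξ, fun m => ?_⟩
        obtain ⟨t, ht⟩ := hξ m
        exact ⟨t, fun a ha => by rw [hj0E, ht a ha]⟩ }
  let P' : Option I → Piece G := fun i => Option.elim i P0 P
  refine assembly P' ?_ PEmpty.{u+1} 0 {0} (Set.finite_singleton _) ?_ ?_ ?_
  · intro i i' hne ξ t
    rcases i with _ | i <;> rcases i' with _ | i'
    · exact absurd rfl hne
    · exact hP2 i' _
    · exact hj0D _ (hP3 i ξ t)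
    · exact hP1 i i' (fun h => hne (by rw [h])) ξ t
  · intro x
    exact ⟨0, rfl, Subsingleton.elim _ _⟩
  · intro i ξ t
    exact Subsingleton.elim _ _
  · intro x hx _
    by_contra hx0
    obtain ⟨n, d, y, hd, hy, hnx, hsum⟩ := hess x hx0
    have h1 : j0 (n • x) = 0 := by
      have := hx none
      rw [map_nsmul]
      show n • P0.j x = 0
      have h2 : P0.j x = 0 := this
      rw [h2, smul_zero]
    rw [hsum, map_add, hj0D d hd, zero_add] at h1
    have h2 : φ ⟨y, hy⟩ = 0 := by rw [← hj0E]; exact h1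
    have h3 : (⟨y, hy⟩ : E0) = 0 := (injective_iff_map_eq_zero φ).1 hφ _ h2
    have h4 : y = 0 := congrArg Subtype.val h3
    rw [h4, add_zero] at hsum
    apply hnx
    rw [hsum]
    apply hDinj d hd
    intro i
    rw [← hsum, map_nsmul]
    have h5 : (P i).j x = 0 := hx (some i)
    rw [h5, smul_zero]

theorem concl_bounded {G : Type u} [AddCommGroup G] (hA : HypA G) (N : ℕ) (hN : 0 < N)
    (hb : ∀ x : G, N • x = 0) : Concl G := by
  classical
  obtain ⟨D, E0, I, hI, P, hE1, -, hP1, hP2, hP3, hDE, hess, hDinj, hfin⟩ := prime_part hA N hN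
  have hE0fin : Finite E0 := hfin hb
  have hχ : ∀ y : E0, ∃ χ : G →+ T, (∀ d ∈ D, χ d = 0) ∧ (χ (y : G) = 0 → y = 0) := by
    intro y
    obtain ⟨τ, hτ1, hτ2⟩ := exists_tau (addOrderOf (y : G))
    let Φ : D × ℤ →+ G := D.subtype.coprod (zmultiplesHom G (y : G))
    let Ψ : D × ℤ →+ (Unit → T) :=
      (zmultiplesHom (Unit → T) (fun _ => τ)).comp (AddMonoidHom.snd _ _)
    obtain ⟨j, hj⟩ := exists_ext Φ Ψ (by
      rintro ⟨d, n⟩ h
      have h1 : (d : G) + n • (y : G) = 0 := h
      have h2 := hDE d d.2 _ (E0.zsmul_mem y.2 n) h1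
      rw [h2, zero_add] at h1
      have h3 := addOrderOf_dvd_iff_zsmul_eq_zero.2 h1
      obtain ⟨m, hm⟩ := h3
      show n • (fun _ : Unit => τ) = 0
      funext _
      show n • τ = 0
      rw [hm, mul_comm, mul_smul, natCast_zsmul, hτ1, smul_zero])
    refine ⟨(Pi.evalAddMonoidHom (fun _ : Unit => T) ()).comp j, ?_, ?_⟩
    · intro d hd
      have h1 := hj (⟨d, hd⟩, 0)
      have h2 : j d = 0 := by simpa [Φ, Ψ] using h1
      simp [h2]
    · intro h0
      have h1 := hj (0, 1)
      have h2 : j (y : G) = fun _ => τ := by simpa [Φ, Ψ] using h1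
      have h3 : τ = 0 := by
        have : j (y : G) () = 0 := h0
        rw [h2] at this
        exact this
      have h4 := hτ2 1 (by rw [h3, smul_zero])
      have h5 : addOrderOf (y : G) = 1 := by
        have := Int.eq_one_of_dvd_one (by positivity) h4
        exact_mod_cast this
      exact Subtype.ext (AddMonoid.addOrderOf_eq_one_iff.1 h5)
  choose χ hχ1 hχ2 using hχ
  let jf : G →+ (E0 → T) :=
    { toFun := fun x y => χ y x
      map_zero' := by funext y; simp
      map_add' := by intro a b; funext y; simp }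
  have hrange : (Set.range jf).Finite := by
    have h1 : (Set.pi Set.univ fun _ : E0 => {u : T | N • u = 0}).Finite :=
      Set.Finite.pi fun _ => AddCircle.finite_torsion (1 : ℝ) hN
    refine h1.subset ?_
    rintro _ ⟨x, rfl⟩ y _
    show N • χ y x = 0
    rw [← map_nsmul, hb, map_zero]
  let g : (E0 → T) → G := fun y => if h : ∃ x, jf x = y then h.choose else 0
  have hg : ∀ x, jf (g (jf x)) = jf x := by
    intro x
    have h : ∃ x', jf x' = jf x := ⟨x, rfl⟩
    simp only [g, h, dif_pos]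
    exact h.choose_spec
  refine assembly P hP1 E0 jf (g '' Set.range jf) (hrange.image g) ?_ ?_ ?_
  · intro x
    exact ⟨g (jf x), ⟨jf x, ⟨x, rfl⟩, rfl⟩, hg x⟩
  · intro i ξ t
    funext y
    exact hχ1 y _ (hP3 i ξ t)
  · intro x hx hx2
    by_contra hx0
    obtain ⟨n, d, y, hd, hy, hnx, hsum⟩ := hess x hx0
    have h1 : χ ⟨y, hy⟩ (n • x) = 0 := by
      rw [map_nsmul]
      have h2 : χ ⟨y, hy⟩ x = 0 := congrFun hx2 ⟨y, hy⟩
      rw [h2, smul_zero]
    rw [hsum, map_add, hχ1 _ d hd, zero_add] at h1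
    have h3 := hχ2 ⟨y, hy⟩ h1
    have h4 : y = 0 := congrArg Subtype.val h3
    rw [h4, add_zero] at hsum
    apply hnx
    rw [hsum]
    apply hDinj d hd
    intro i
    rw [← hsum, map_nsmul, hx i, smul_zero]

theorem main_theorem (G : Type u) [AddCommGroup G] [TopologicalSpace G] [IsTopologicalAddGroup G]
    [T2Space G] (hp : ∀ f : G → ℝ, Continuous f → ∃ C : ℝ, ∀ x, |f x| ≤ C) : Concl G := by
  obtain ⟨K, _, _, _, _, _, ι, hι, hd⟩ := Pool.Agent.H990R4.PC1.pc1 G hp
  have hA := hypA_of ι hι hd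
  by_cases hb : ∃ N : ℕ, 0 < N ∧ ∀ x : G, N • x = 0
  · obtain ⟨N, hN, hb⟩ := hb
    exact concl_bounded hA N hN hb
  · push Not at hb
    obtain ⟨M, e, n, J, he, hn, hJ, hM, hcard, hfam⟩ :=
      Pool.Agent.H526R3.PC5.pc5 Pool.Agent.H973R3.PC2.pc2 Pool.Agent.H345R3.PC3.pc3 G K ι hι hd hb
    exact concl_unbounded hA M e n J he hn hJ hM hcard hfam

end Pool.Agent.H376R3.PC
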