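import Pool.Agent.H376R3.PC.Rec
import Pool.Agent.H206R3.PC4
import Pool.Agent.H973R3.PC7

/-!
# All prime powers together
-/

set_option autoImplicit false

universe u

namespace Pool.Agent.H376R3.PC

open Cardinal Topology

/-- the hypothesis on the multiples of the group -/
def HypA (G : Type u) [AddCommGroup G] : Prop :=
  ∀ n : ℕ, 0 < n → (Set.range fun x : G => n • x).Infinite →
    𝔠 ≤ #(Set.range fun x : G => n • x) ∧ ∃ J : Type u, ℵ₁ ≤ #J ∧
      #(Set.range fun x : G => n • x) ≤ 2 ^ #J ∧ InjFam J #(Set.range fun x : G => n • x)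

theorem V_add {G : Type u} [AddCommGroup G] {p k : ℕ} {x y : G} (hx : x ∈ V (G := G) p k)
    (hy : y ∈ V (G := G) p k) : x + y ∈ V (G := G) p k := by
  obtain ⟨hx1, g, rfl⟩ := hx
  obtain ⟨hy1, g', rfl⟩ := hy
  exact ⟨by rw [smul_add, hx1, hy1, add_zero], g + g', by rw [smul_add]⟩

theorem V_neg {G : Type u} [AddCommGroup G] {p k : ℕ} {x : G} (hx : x ∈ V (G := G) p k) :
    -x ∈ V (G := G) p k := by
  obtain ⟨hx1, g, rfl⟩ := hx
  exact ⟨by rw [smul_neg, hx1, neg_zero], -g, by rw [smul_neg]⟩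

theorem V_zero {G : Type u} [AddCommGroup G] (p k : ℕ) : (0 : G) ∈ V (G := G) p k :=
  ⟨by simp, 0, by simp⟩

theorem eq_zero_of_coprime {G : Type*} [AddCommGroup G] {m n : ℕ} (h : Nat.Coprime m n) {x : G}
    (h1 : m • x = 0) (h2 : n • x = 0) : x = 0 := by
  obtain ⟨a, b, hab⟩ := Nat.isCoprime_iff_coprime.2 h
  have : x = (a * (m : ℤ) + b * (n : ℤ)) • x := by rw [hab, one_smul]
  rw [this, add_smul, mul_smul, mul_smul, natCast_zsmul, natCast_zsmul, h1, h2]
  simp

/-- the piece of a prime power, in the case of a record or not -/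
theorem piece_of {G : Type u} [AddCommGroup G] (hA : HypA G) (N : ℕ) (hN : 0 < N) (p : ℕ)
    (hp : p.Prime) (h : ℕ) (hh : h ≤ padicValNat p N)
    (hbig : ∀ k < h, max ℵ₀ #(Set.range fun x : G => N • x) < #(V (G := G) p k))
    (B : Type u) (κ : B → ℕ) (b : B → G)
    (hht : ∀ (c : B →₀ ℤ) (m : ℕ), m ≤ h → (∃ g : G, (c.sum fun w n => n • b w) = p ^ m • g) →
        ∀ w, ((p ^ min m (κ w + 1) : ℕ) : ℤ) ∣ c w)
    (hcard : ∀ k, #{w // κ w = k} ≤ #(V (G := G) p k))
    (hcard2 : ∀ k < h, ℵ₀ < #(V (G := G) p k) → #(V (G := G) p (k + 1)) < #(V (G := G) p k) →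
        #{w // κ w = k} = #(V (G := G) p k)) (k : Fin h) :
    ∃ P : Piece G, ((∀ ξ t, P.S ξ t = 0) ∨ (#(V (G := G) p (k + 1)) < #(V (G := G) p k) ∧
        ∀ ξ t, ∃ w, κ w = k ∧ P.S ξ t = b w)) ∧
      (∀ x, p ^ ((k : ℕ) + 1) • P.j x = 0) ∧
      (∀ w, ¬ (κ w ≤ k ∧ #(V (G := G) p (κ w)) = #(V (G := G) p k)) → P.j (b w) = 0) ∧
      (#(V (G := G) p (k + 1)) < #(V (G := G) p k) →
        ∀ c : B →₀ ℤ, (c.sum fun w n => n • P.j (b w)) = 0 →
        ∀ w, (κ w ≤ k ∧ #(V (G := G) p (κ w)) = #(V (G := G) p k)) →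
          ((p ^ (κ w + 1) : ℕ) : ℤ) ∣ c w) := by
  by_cases hrec : #(V (G := G) p (k + 1)) < #(V (G := G) p k)
  · have hk := hbig k k.2
    have h0 : ℵ₀ < #(V (G := G) p k) := (le_max_left _ _).trans_lt hk
    have h1 : #(Set.range fun x : G => N • x) ≤ #(V (G := G) p k) :=
      ((le_max_right _ _).trans_lt hk).le
    have hdv : p ^ ((k : ℕ) + 1) ∣ N := by
      have := Fact.mk hp
      exact (pow_dvd_pow p (k.2.trans_le hh)).trans pow_padicValNat_dvd
    have h2 := Pool.Agent.H973R3.PC7.pc7 (G := G) N p k hp hN hdv h0.le h1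
    have hn : 0 < N / p ^ (padicValNat p N) * p ^ (k : ℕ) := by
      have := Fact.mk hp
      apply Nat.mul_pos
      · exact Nat.div_pos (Nat.le_of_dvd hN pow_padicValNat_dvd) (pow_pos hp.pos _)
      · exact pow_pos hp.pos _
    have hinf : (Set.range fun x : G => (N / p ^ (padicValNat p N) * p ^ (k : ℕ)) • x).Infinite := by
      rw [← Set.infinite_coe_iff, Cardinal.infinite_iff, h2]
      exact h0.le
    obtain ⟨hc, J, hJ, hJ2, hfam⟩ := hA _ hn hinf
    rw [h2] at hc hJ2 hfam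
    obtain ⟨P, hP1, hP2, hP3, hP4⟩ := record_piece p k h k.2 B κ b hht hcard hcard2 J hJ hJ2 hfam
      hc hrec
    exact ⟨P, Or.inr ⟨hrec, hP1⟩, hP2, hP3, fun _ => hP4⟩
  · refine ⟨Piece.triv G, Or.inl fun _ _ => rfl, fun x => ?_, fun w _ => rfl,
      fun h => absurd h hrec⟩
    exact funext fun a => PEmpty.elim a

theorem prime_part {G : Type u} [AddCommGroup G] (hA : HypA G) (N : ℕ) (hN : 0 < N) :
    ∃ (D E0 : AddSubgroup G) (I : Type) (_ : Fintype I) (P : I → Piece G),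
      (∀ x : G, N • x ∈ E0) ∧ #E0 ≤ max ℵ₀ #(Set.range fun x : G => N • x) ∧
      (∀ i i', i ≠ i' → ∀ ξ t, (P i').j ((P i).S ξ t) = 0) ∧
      (∀ i x, (P i).j (N • x) = 0) ∧ (∀ i ξ t, (P i).S ξ t ∈ D) ∧
      (∀ d ∈ D, ∀ e ∈ E0, d + e = 0 → d = 0) ∧
      (∀ x : G, x ≠ 0 → ∃ (n : ℕ) (d e : G), d ∈ D ∧ e ∈ E0 ∧ n • x ≠ 0 ∧ n • x = d + e) ∧
      (∀ d ∈ D, (∀ i, (P i).j d = 0) → d = 0) ∧
      ((∀ x : G, N • x = 0) → (E0 : Set G).Finite) := by
  classical
  let F : Type := {p // p ∈ N.primeFactors}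
  have hpr : ∀ p : F, (p : ℕ).Prime := fun p => Nat.prime_of_mem_primeFactors p.2
  have hpd : ∀ p : F, (p : ℕ) ∣ N := fun p => Nat.dvd_of_mem_primeFactors p.2
  set lam : Cardinal.{u} := max ℵ₀ #(Set.range fun x : G => N • x) with hlam
  choose h hh hbig hsmall using fun p : F => exists_h (G := G) (hpr p) hN lam (le_max_right _ _)
  choose B κ b hκ hb hht hsoc hcard hcard2 using
    fun p : F => Pool.Agent.H206R3.PC4.pc4 G (p : ℕ) (h p) (hpr p)
  choose P hP1 hP2 hP3 hP4 using fun (i : Σ p : F, Fin (h p)) =>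
    piece_of hA N hN (i.1 : ℕ) (hpr i.1) (h i.1) (hh i.1) (hbig i.1) (B i.1) (κ i.1) (b i.1)
      (hht i.1) (hcard i.1) (hcard2 i.1) i.2
  let lc : ∀ p : F, (B p →₀ ℤ) →+ G := fun p => (Finsupp.linearCombination ℤ (b p)).toAddMonoidHom
  have hlc : ∀ p c, lc p c = c.sum fun w n => n • b p w := fun p c =>
    Finsupp.linearCombination_apply ℤ c
  let Φ : (∀ p : F, (B p →₀ ℤ)) →+ G := ∑ p : F, (lc p).comp (Pi.evalAddMonoidHom _ p)
  have hΦ : ∀ c, Φ c = ∑ p : F, lc p (c p) := by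
    intro c; simp [Φ, AddMonoidHom.finsetSum_apply]
  -- combinations are killed by `p ^ h p`
  have hkill : ∀ (p : F) (c : B p →₀ ℤ), (p : ℕ) ^ h p • lc p c = 0 := by
    intro p c
    rw [hlc, Finsupp.smul_sum]
    apply Finset.sum_eq_zero
    intro w _
    have h1 : (p : ℕ) ^ h p • b p w = 0 := by
      obtain ⟨m, hm⟩ := pow_dvd_pow (p : ℕ) (hκ p w)
      rw [hm, mul_comm, mul_smul, hb, smul_zero]
    show (p : ℕ) ^ h p • c w • b p w = 0
    rw [smul_comm, h1, smul_zero]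
  have hcop : ∀ p p' : F, p ≠ p' → Nat.Coprime (p : ℕ) (p' : ℕ) := by
    intro p p' hne
    exact (Nat.coprime_primes (hpr p) (hpr p')).2 (fun h => hne (Subtype.ext h))
  let E0 : AddSubgroup G :=
    { carrier := {x | ∃ (g : G) (v : F → G), (∀ p : F, v p ∈ V (G := G) (p : ℕ) (h p)) ∧
        x = N • g + ∑ p, v p}
      zero_mem' := ⟨0, fun _ => 0, fun p => V_zero _ _, by simp⟩
      add_mem' := by
        rintro x y ⟨g, v, hv, rfl⟩ ⟨g', v', hv', rfl⟩
        refine ⟨g + g', fun p => v p + v' p, fun p => V_add (hv p) (hv' p), ?_⟩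
        rw [smul_add, Finset.sum_add_distrib]
        abel
      neg_mem' := by
        rintro x ⟨g, v, hv, rfl⟩
        refine ⟨-g, fun p => - v p, fun p => V_neg (hv p), ?_⟩
        rw [smul_neg, Finset.sum_neg_distrib]
        abel }
  have hE0 : ∀ x, x ∈ E0 ↔ ∃ (g : G) (v : F → G), (∀ p : F, v p ∈ V (G := G) (p : ℕ) (h p)) ∧
        x = N • g + ∑ p, v p := fun x => Iff.rfl
  -- the main independence
  have hkey : ∀ (c : ∀ p : F, (B p →₀ ℤ)) (e : G), e ∈ E0 → Φ c + e = 0 →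
      ∀ (p : F) (w : B p), (((p : ℕ) ^ (κ p w + 1) : ℕ) : ℤ) ∣ c p w := by
    rintro c e ⟨g, v, hv, rfl⟩ h0 p w
    have := Fact.mk (hpr p)
    set vv := padicValNat (p : ℕ) N with hvv
    have hdvd : (p : ℕ) ^ vv ∣ N := pow_padicValNat_dvd
    set N0 := N / (p : ℕ) ^ vv with hN0
    have hNeq : (p : ℕ) ^ vv * N0 = N := Nat.mul_div_cancel' hdvd
    have hcopN : Nat.Coprime N0 (p : ℕ) := by
      rw [Nat.coprime_comm, (hpr p).coprime_iff_not_dvd]
      intro hd
      have h1' : (p : ℕ) ^ (vv + 1) ∣ (p : ℕ) ^ vv * N0 := by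
        rw [pow_succ]
        exact Nat.mul_dvd_mul_left _ hd
      have h1 : (p : ℕ) ^ (vv + 1) ∣ N := h1'.trans (dvd_of_eq hNeq)
      have h2 := (padicValNat_dvd_iff_le hN.ne').1 h1
      omega
    have hdp : ∀ p' : F, p' ≠ p → (p' : ℕ) ^ h p' ∣ N0 := by
      intro p' hne
      have := Fact.mk (hpr p')
      have h1 : (p' : ℕ) ^ h p' ∣ (p : ℕ) ^ vv * N0 := by
        rw [hNeq]
        exact (pow_dvd_pow _ (hh p')).trans pow_padicValNat_dvd
      exact (Nat.Coprime.pow _ _ (hcop p' p hne)).dvd_of_dvd_mul_left h1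
    have hdp1 : ∀ p' : F, p' ≠ p → (p' : ℕ) ∣ N0 := by
      intro p' hne
      have h1 : (p' : ℕ) ∣ (p : ℕ) ^ vv * N0 := by rw [hNeq]; exact hpd p'
      exact (Nat.Coprime.pow_right _ (hcop p' p hne)).dvd_of_dvd_mul_left h1
    have h2 : N0 • Φ c = lc p (N0 • c p) := by
      rw [hΦ, Finset.smul_sum, Finset.sum_eq_single p]
      · rw [map_nsmul]
      · intro p' _ hne
        obtain ⟨m, hm⟩ := hdp p' hne
        rw [hm, mul_comm, mul_smul, hkill, smul_zero]
      · intro h; exact absurd (Finset.mem_univ p) h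
    have h3 : N0 • ∑ p', v p' = N0 • v p := by
      rw [Finset.smul_sum, Finset.sum_eq_single p]
      · intro p' _ hne
        obtain ⟨m, hm⟩ := hdp1 p' hne
        rw [hm, mul_comm, mul_smul, (hv p').1, smul_zero]
      · intro h; exact absurd (Finset.mem_univ p) h
    obtain ⟨g', hg'⟩ := (hv p).2
    obtain ⟨m, hm⟩ : (p : ℕ) ^ h p ∣ N := (pow_dvd_pow _ (hh p)).trans hdvd
    have h4 : lc p (N0 • c p) = (p : ℕ) ^ h p • (-(N0 • m • g + N0 • g')) := by
      have h5 : N0 • Φ c + (N0 • N • g + N0 • ∑ p', v p') = 0 := by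
        rw [← smul_add, ← smul_add, h0, smul_zero]
      have hNg : N • g = (p : ℕ) ^ h p • (m • g) :=
        (congrArg (fun k : ℕ => k • g) hm).trans (mul_smul _ _ _)
      rw [h2, h3, hg', hNg] at h5
      rw [eq_neg_of_add_eq_zero_left h5, smul_neg, smul_add,
        smul_comm N0 ((p : ℕ) ^ h p) (m • g), smul_comm N0 ((p : ℕ) ^ h p) g']
    have h6 := hht p (N0 • c p) (h p) le_rfl ⟨_, by rw [← hlc]; exact h4⟩ w
    have h7 : min (h p) (κ p w + 1) = κ p w + 1 := min_eq_right (hκ p w)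
    rw [h7] at h6
    have h8 : (N0 • c p) w = (N0 : ℤ) * c p w := by simp
    rw [h8] at h6
    have h9 : IsCoprime (((p : ℕ) ^ (κ p w + 1) : ℕ) : ℤ) (N0 : ℤ) :=
      Nat.isCoprime_iff_coprime.2 (Nat.Coprime.pow_left _ hcopN.symm)
    exact h9.dvd_of_dvd_mul_left h6
  have hdiv0 : ∀ (c : ∀ p : F, (B p →₀ ℤ)),
      (∀ (p : F) (w : B p), (((p : ℕ) ^ (κ p w + 1) : ℕ) : ℤ) ∣ c p w) → Φ c = 0 := by
    intro c hc
    rw [hΦ]
    apply Finset.sum_eq_zero
    intro p _
    rw [hlc]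
    apply Finset.sum_eq_zero
    intro w _
    obtain ⟨m, hm⟩ := hc p w
    show c p w • b p w = 0
    rw [hm, mul_comm, mul_smul, natCast_zsmul, hb, smul_zero]
  refine ⟨Φ.range, E0, Σ p : F, Fin (h p), inferInstance, P, ?_, ?_, ?_, ?_, ?_, ?_, ?_, ?_, ?_⟩
  · intro x
    exact ⟨x, fun _ => 0, fun p => V_zero _ _, by simp⟩
  · -- cardinality of `E0`
    let f : (Set.range fun x : G => N • x) × (∀ p : F, V (G := G) (p : ℕ) (h p)) → E0 :=
      fun y => ⟨y.1.1 + ∑ p, (y.2 p).1, by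
        obtain ⟨⟨x, g, hg⟩, v⟩ := y
        exact ⟨g, fun p => (v p).1, fun p => (v p).2,
          congrArg (fun z => z + ∑ p, (v p).1) hg.symm⟩⟩
    have hf : Function.Surjective f := by
      rintro ⟨x, g, v, hv, rfl⟩
      exact ⟨(⟨N • g, g, rfl⟩, fun p => ⟨v p, hv p⟩), rfl⟩
    have h0 : ℵ₀ ≤ lam := le_max_left _ _
    refine (Cardinal.mk_le_of_surjective hf).trans ?_
    rw [Cardinal.mk_prod, Cardinal.lift_id, Cardinal.lift_id, Cardinal.mk_pi]
    have h1 : Cardinal.prod (fun p : F => #(V (G := G) (p : ℕ) (h p))) ≤ lam := by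
      refine (Cardinal.prod_le_prod _ (fun _ => lam) hsmall).trans ?_
      rw [Cardinal.prod_const]
      have h2 : Cardinal.lift.{u} #F = ((Fintype.card F : ℕ) : Cardinal.{u}) := by simp
      rw [h2, Cardinal.lift_uzero]
      exact Cardinal.power_nat_le h0
    exact (mul_le_mul' (le_max_right _ _) h1).trans (Cardinal.mul_eq_self h0).le
  · -- cross terms
    rintro ⟨p, k⟩ ⟨p', k'⟩ hne ξ t
    rcases hP1 ⟨p, k⟩ with h1 | ⟨hrec, h1⟩
    · rw [h1, map_zero]
    obtain ⟨w, hw, hS⟩ := h1 ξ t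
    rw [hS]
    by_cases hpp : p = p'
    · subst hpp
      apply hP3 ⟨p, k'⟩ w
      rintro ⟨h2, h3⟩
      simp only at hw h2 h3 hrec
      rw [hw] at h2 h3
      have hkk : (k : ℕ) ≠ (k' : ℕ) := by
        intro h4
        apply hne
        have : k = k' := Fin.ext h4
        rw [this]
      have h4 : (k : ℕ) + 1 ≤ (k' : ℕ) := by omega
      have h5 := Cardinal.mk_le_mk_of_subset (V_anti (G := G) (p : ℕ) h4)
      rw [← h3] at h5
      exact absurd hrec (not_lt.2 h5)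
    · refine eq_zero_of_coprime (m := (p : ℕ) ^ (κ p w + 1)) (n := (p' : ℕ) ^ ((k' : ℕ) + 1))
        (Nat.Coprime.pow _ _ (hcop p p' hpp)) ?_ (hP2 ⟨p', k'⟩ _)
      rw [← map_nsmul]
      show (P ⟨p', k'⟩).j ((p : ℕ) ^ (κ p w + 1) • b p w) = 0
      rw [hb, map_zero]
  · rintro ⟨p, k⟩ x
    have := Fact.mk (hpr p)
    obtain ⟨m, hm⟩ : (p : ℕ) ^ ((k : ℕ) + 1) ∣ N :=
      (pow_dvd_pow _ (k.2.trans_le (hh p))).trans pow_padicValNat_dvd
    rw [map_nsmul, hm, mul_comm, mul_smul]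
    have := hP2 ⟨p, k⟩ x
    rw [this, smul_zero]
  · rintro ⟨p, k⟩ ξ t
    rcases hP1 ⟨p, k⟩ with h1 | ⟨hrec, h1⟩
    · rw [h1]; exact zero_mem _
    obtain ⟨w, hw, hS⟩ := h1 ξ t
    rw [hS]
    refine ⟨Pi.single p (Finsupp.single w 1), ?_⟩
    rw [hΦ, Finset.sum_eq_single p]
    · rw [Pi.single_eq_same, hlc]; simp
    · intro p' _ hne
      rw [Pi.single_eq_of_ne hne, map_zero]
    · intro h; exact absurd (Finset.mem_univ p) h
  · rintro d ⟨c, rfl⟩ e he h0
    exact hdiv0 c (hkey c e he h0)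
  · -- essential
    intro x hx
    by_cases hNx : N • x = 0
    swap
    · exact ⟨N, 0, N • x, zero_mem _, ⟨x, fun _ => 0, fun p => V_zero _ _, by simp⟩, hNx,
        by rw [zero_add]⟩
    have ho : addOrderOf x ∣ N := addOrderOf_dvd_of_nsmul_eq_zero hNx
    have ho1 : addOrderOf x ≠ 1 := by
      intro h1
      exact hx (AddMonoid.addOrderOf_eq_one_iff.1 h1)
    obtain ⟨q, hq, hqd⟩ := Nat.exists_prime_and_dvd ho1
    have hqN : q ∈ N.primeFactors := Nat.mem_primeFactors.2 ⟨hq, hqd.trans ho, hN.ne'⟩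
    let p : F := ⟨q, hqN⟩
    obtain ⟨m, hm⟩ := hqd
    have hm0 : 0 < m := by
      rcases Nat.eq_zero_or_pos m with h1 | h1
      · rw [h1, mul_zero] at hm
        rw [hm] at ho
        exact absurd (Nat.eq_zero_of_zero_dvd ho) hN.ne'
      · exact h1
    have hy : m • x ≠ 0 := by
      intro h1
      have h2 := addOrderOf_dvd_of_nsmul_eq_zero h1
      rw [hm] at h2
      have h3 := Nat.le_of_dvd hm0 h2
      have h4 := hq.two_le
      nlinarith
    have hpy : (p : ℕ) • (m • x) = 0 := by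
      rw [smul_smul]
      show (q * m) • x = 0
      rw [← hm]; exact addOrderOf_nsmul_eq_zero x
    obtain ⟨c, g, hg, hc⟩ := hsoc p (m • x) hpy
    let c' : B p →₀ ℤ := Finsupp.onFinset c.support (fun w => c w * (p : ℤ) ^ κ p w) (by
      intro w hw
      rw [Finsupp.mem_support_iff]
      intro h1
      exact hw (by rw [h1, zero_mul]))
    have hc' : lc p c' = c.sum fun w n => (n * (p : ℤ) ^ κ p w) • b p w := by
      rw [hlc]
      exact Finsupp.onFinset_sum _ (fun w => zero_smul _ _)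
    refine ⟨m, lc p c', (p : ℕ) ^ h p • g, ⟨Pi.single p c', ?_⟩,
      ⟨0, Pi.single p ((p : ℕ) ^ h p • g), ?_, ?_⟩, hy, ?_⟩
    · rw [hΦ, Finset.sum_eq_single p]
      · rw [Pi.single_eq_same]
      · intro p' _ hne
        rw [Pi.single_eq_of_ne hne, map_zero]
      · intro h; exact absurd (Finset.mem_univ p) h
    · intro p'
      by_cases hpp : p' = p
      · subst hpp
        rw [Pi.single_eq_same]; exact hg
      · rw [Pi.single_eq_of_ne hpp]; exact V_zero _ _
    · rw [smul_zero, zero_add, Finset.sum_eq_single p]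
      · rw [Pi.single_eq_same]
      · intro p' _ hne
        rw [Pi.single_eq_of_ne hne]
      · intro h; exact absurd (Finset.mem_univ p) h
    · rw [hc, hc']
  · -- joint injectivity on `D`
    rintro d ⟨c, rfl⟩ hd
    apply hdiv0
    intro p w
    -- the record block of `w`
    have hex : ∃ k', κ p w ≤ k' ∧ k' < h p ∧
        #(V (G := G) (p : ℕ) (κ p w)) = #(V (G := G) (p : ℕ) k') ∧
        #(V (G := G) (p : ℕ) (k' + 1)) < #(V (G := G) (p : ℕ) k') := by
      let Q : ℕ → Prop := fun k' => κ p w ≤ k' ∧ k' < h p ∧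
        #(V (G := G) (p : ℕ) (κ p w)) = #(V (G := G) (p : ℕ) k')
      have hQ0 : Q (κ p w) := ⟨le_rfl, hκ p w, rfl⟩
      have hQ1 := Nat.findGreatest_spec (P := Q) (n := h p) (hκ p w).le hQ0
      set k' := Nat.findGreatest Q (h p) with hk'
      refine ⟨k', hQ1.1, hQ1.2.1, hQ1.2.2, ?_⟩
      by_contra hnot
      have h1 : #(V (G := G) (p : ℕ) (k' + 1)) = #(V (G := G) (p : ℕ) k') :=
        le_antisymm (Cardinal.mk_le_mk_of_subset (V_anti (G := G) (p : ℕ) (Nat.le_succ k')))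
          (not_lt.1 hnot)
      by_cases h2 : k' + 1 < h p
      · have h3 : Q (k' + 1) := ⟨hQ1.1.trans (Nat.le_succ _), h2, by rw [h1]; exact hQ1.2.2⟩
        have h4 := Nat.le_findGreatest (P := Q) (n := h p) h2.le h3
        rw [← hk'] at h4
        omega
      · have h3 : k' + 1 = h p := by have := hQ1.2.1; omega
        have h4 := hbig p k' hQ1.2.1
        have h5 := hsmall p
        rw [← h3, h1] at h5
        exact absurd h5 (not_le.2 h4)
    obtain ⟨k', hk1, hk2, hk3, hk4⟩ := hex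
    have h1 := hd ⟨p, ⟨k', hk2⟩⟩
    have h2 : (P ⟨p, ⟨k', hk2⟩⟩).j (Φ c) = (c p).sum fun w n => n • (P ⟨p, ⟨k', hk2⟩⟩).j (b p w) := by
      rw [hΦ, map_sum, Finset.sum_eq_single p]
      · rw [hlc, map_finsuppSum]
        apply Finsupp.sum_congr
        intro w _
        rw [map_zsmul]
      · intro p' _ hne
        refine eq_zero_of_coprime (m := (p' : ℕ) ^ h p') (n := (p : ℕ) ^ (k' + 1))
          (Nat.Coprime.pow _ _ (hcop p' p hne)) ?_ (hP2 ⟨p, ⟨k', hk2⟩⟩ _)
        rw [← map_nsmul, hkill, map_zero]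
      · intro h; exact absurd (Finset.mem_univ p) h
    exact hP4 ⟨p, ⟨k', hk2⟩⟩ hk4 (c p) (by rw [← h2]; exact h1) w ⟨hk1, hk3⟩
  · -- the bounded case
    intro hb0
    have hr1 : #(Set.range fun x : G => N • x) ≤ 1 := by
      rw [Cardinal.mk_le_one_iff_set_subsingleton]
      rintro x ⟨g, rfl⟩ y ⟨g', rfl⟩
      simp only [hb0]
    have hlam0 : lam = ℵ₀ := by
      rw [hlam]
      exact max_eq_left (hr1.trans Cardinal.one_le_aleph0)
    have hVf : ∀ p : F, (V (G := G) (p : ℕ) (h p)).Finite := by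
      intro p
      by_contra hinf
      have hinf' : ℵ₀ ≤ #(V (G := G) (p : ℕ) (h p)) := by
        rw [← Cardinal.infinite_iff, Set.infinite_coe_iff]
        exact hinf
      have := Fact.mk (hpr p)
      rcases (hh p).lt_or_eq with hlt | heq
      · have hdv : (p : ℕ) ^ (h p + 1) ∣ N := (pow_dvd_pow _ hlt).trans pow_padicValNat_dvd
        have h2 := Pool.Agent.H973R3.PC7.pc7 (G := G) N p (h p) (hpr p) hN hdv hinf'
          (hr1.trans (Cardinal.one_le_aleph0.trans hinf'))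
        have hn : 0 < N / (p : ℕ) ^ (padicValNat (p : ℕ) N) * (p : ℕ) ^ (h p) := by
          apply Nat.mul_pos
          · exact Nat.div_pos (Nat.le_of_dvd hN pow_padicValNat_dvd) (pow_pos (hpr p).pos _)
          · exact pow_pos (hpr p).pos _
        have hinf2 : (Set.range fun x : G =>
            (N / (p : ℕ) ^ (padicValNat (p : ℕ) N) * (p : ℕ) ^ (h p)) • x).Infinite := by
          rw [← Set.infinite_coe_iff, Cardinal.infinite_iff, h2]
          exact hinf'
        have h3 := (hA _ hn hinf2).1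
        rw [h2] at h3
        have h4 := h3.trans (hsmall p)
        rw [hlam0] at h4
        exact absurd h4 (not_le.2 Cardinal.aleph0_lt_continuum)
      · apply hinf
        rw [heq]
        refine Set.Finite.subset ?_ (V_sub (G := G) (hpr p) hN)
        refine Set.Finite.subset (Set.finite_singleton (0 : G)) ?_
        rintro x ⟨g, rfl⟩
        simp only [hb0]
        rfl
    have h5 : (Set.pi Set.univ fun p : F => V (G := G) (p : ℕ) (h p)).Finite :=
      Set.Finite.pi hVf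
    refine (h5.image fun v => ∑ p, v p).subset ?_
    rintro x ⟨g, v, hv, rfl⟩
    exact ⟨v, fun p _ => hv p, by simp [hb0]⟩

end Pool.Agent.H376R3.PC
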