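import Pool.Agent.H376R3.PC.Asm

/-!
# The piece of a prime power
-/

set_option autoImplicit false

universe u

namespace Pool.Agent.H376R3.PC

open Cardinal Topology

theorem V_anti {G : Type u} [AddCommGroup G] (p : ℕ) {k l : ℕ} (h : k ≤ l) :
    V (G := G) p l ⊆ V (G := G) p k := by
  rintro x ⟨hx, g, rfl⟩
  refine ⟨hx, p ^ (l - k) • g, ?_⟩
  rw [smul_smul, ← pow_add, Nat.add_sub_cancel' h]

theorem V_sub {G : Type u} [AddCommGroup G] {p N : ℕ} (hp : p.Prime) (hN : 0 < N) :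
    V (G := G) p (padicValNat p N) ⊆ Set.range fun x : G => N • x := by
  rintro x ⟨hx, g, hg⟩
  have := Fact.mk hp
  set v := padicValNat p N with hv
  have hdvd : p ^ v ∣ N := pow_padicValNat_dvd
  have hNeq : p ^ v * (N / p ^ v) = N := Nat.mul_div_cancel' hdvd
  have hcop : Nat.Coprime (N / p ^ v) p := by
    rw [Nat.coprime_comm, hp.coprime_iff_not_dvd]
    intro h
    have h1 : p ^ (v + 1) ∣ N := by
      rw [← hNeq, pow_succ]
      exact Nat.mul_dvd_mul_left _ h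
    have h2 := (padicValNat_dvd_iff_le hN.ne').1 h1
    omega
  obtain ⟨a, b, hab⟩ := Nat.isCoprime_iff_coprime.2 hcop
  refine ⟨a • g, ?_⟩
  show N • (a • g) = x
  have h1 : x = (a * ((N / p ^ v : ℕ) : ℤ) + b * (p : ℤ)) • x := by rw [hab, one_smul]
  have h2 : (b * (p : ℤ)) • x = 0 := by
    rw [mul_smul, natCast_zsmul, hx, smul_zero]
  rw [add_smul, h2, add_zero, hg] at h1
  rw [hg, h1, mul_smul, natCast_zsmul, smul_smul, mul_comm (N / p ^ v), hNeq, smul_comm]

theorem exists_h {G : Type u} [AddCommGroup G] {p N : ℕ} (hp : p.Prime) (hN : 0 < N)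
    (lam : Cardinal.{u}) (hl : #(Set.range fun x : G => N • x) ≤ lam) :
    ∃ h ≤ padicValNat p N, (∀ k < h, lam < #(V (G := G) p k)) ∧ #(V (G := G) p h) ≤ lam := by
  classical
  have hex : ∃ h, #(V (G := G) p h) ≤ lam :=
    ⟨padicValNat p N, (Cardinal.mk_le_mk_of_subset (V_sub hp hN)).trans hl⟩
  refine ⟨Nat.find hex, Nat.find_min' hex
    ((Cardinal.mk_le_mk_of_subset (V_sub hp hN)).trans hl), ?_, Nat.find_spec hex⟩
  intro k hk
  exact not_le.1 (Nat.find_min hex hk)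

theorem record_piece {G : Type u} [AddCommGroup G] (p k h : ℕ) (hk : k < h)
    (B : Type u) (κ : B → ℕ) (b : B → G) (hht : ∀ (c : B →₀ ℤ) (m : ℕ), m ≤ h → (∃ g : G, (c.sum fun w n => n • b w) = p ^ m • g) →
        ∀ w, ((p ^ min m (κ w + 1) : ℕ) : ℤ) ∣ c w)
    (hcard : ∀ k, #{w // κ w = k} ≤ #(V (G := G) p k))
    (hcard2 : ∀ k < h, ℵ₀ < #(V (G := G) p k) → #(V (G := G) p (k + 1)) < #(V (G := G) p k) →
        #{w // κ w = k} = #(V (G := G) p k))
    (J : Type u) (hJ : ℵ₁ ≤ #J) (hJ2 : #(V (G := G) p k) ≤ 2 ^ #J)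
    (hfam : InjFam J #(V (G := G) p k)) (hc : 𝔠 ≤ #(V (G := G) p k))
    (hrec : #(V (G := G) p (k + 1)) < #(V (G := G) p k)) :
    ∃ P : Piece G, (∀ ξ t, ∃ w, κ w = k ∧ P.S ξ t = b w) ∧
      (∀ x, p ^ (k + 1) • P.j x = 0) ∧
      (∀ w, ¬ (κ w ≤ k ∧ #(V (G := G) p (κ w)) = #(V (G := G) p k)) → P.j (b w) = 0) ∧
      (∀ c : B →₀ ℤ, (c.sum fun w n => n • P.j (b w)) = 0 →
        ∀ w, (κ w ≤ k ∧ #(V (G := G) p (κ w)) = #(V (G := G) p k)) →
          ((p ^ (κ w + 1) : ℕ) : ℤ) ∣ c w) := by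
  classical
  let Q : B → Prop := fun w => κ w ≤ k ∧ #(V (G := G) p (κ w)) = #(V (G := G) p k)
  have hMcard : #{w // κ w = k} = #(V (G := G) p k) :=
    hcard2 k hk (Cardinal.aleph0_lt_continuum.trans_le hc) hrec
  have hM0 : ℵ₀ ≤ #(V (G := G) p k) := Cardinal.aleph0_le_continuum.trans hc
  let e0 : {w // κ w = k} → {w // Q w} := fun w => ⟨w.1, by rw [w.2], by rw [w.2]⟩
  have he0 : Function.Injective e0 := by
    intro w w' hww
    have : (e0 w).1 = (e0 w').1 := by rw [hww]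
    exact Subtype.ext this
  have hBcard : #{w // Q w} ≤ 2 ^ #J := by
    refine le_trans ?_ hJ2
    have h1 : #{w // Q w} = #(Σ i : ℕ, {w : {w // Q w} // κ w.1 = i}) :=
      Cardinal.mk_congr (Equiv.sigmaFiberEquiv fun w : {w // Q w} => κ w.1).symm
    rw [h1, Cardinal.mk_sigma]
    refine (Cardinal.sum_le_sum _ (fun _ => #(V (G := G) p k)) ?_).trans ?_
    · intro i
      by_cases hi : Nonempty {w : {w // Q w} // κ w.1 = i}
      · obtain ⟨w, hw⟩ := hi
        have h2 : #{w : {w // Q w} // κ w.1 = i} ≤ #{w // κ w = i} := by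
          refine Cardinal.mk_le_of_injective (f := fun w => ⟨w.1.1, w.2⟩) ?_
          intro a a' haa
          have : a.1.1 = a'.1.1 := by simpa using haa
          exact Subtype.ext (Subtype.ext this)
        refine h2.trans ((hcard i).trans ?_)
        rw [← hw, w.2.2]
      · rw [not_nonempty_iff] at hi
        simp
    · rw [Cardinal.sum_const]
      simp only [Cardinal.mk_nat, Cardinal.lift_aleph0]
      exact (Cardinal.mul_le_max_of_aleph0_le_left le_rfl).trans (max_le hM0 (by rw [Cardinal.lift_uzero]))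
  obtain ⟨X, ψ, Ξ, s, hψ0, hψ1, hψc, hψh⟩ := type_lemma (B := {w // Q w})
    (M := {w // κ w = k}) (J := J) (p ^ (k + 1)) (fun w => p ^ (κ w.1 + 1)) e0 he0
    (fun m => by simp only [e0]; rw [m.2]) hJ (by rw [hMcard]; exact hfam)
    (by rw [hMcard]; exact hc) hBcard
  let ψ' : B → X → T := fun w => if hw : Q w then ψ ⟨w, hw⟩ else 0
  have hψ' : ∀ w (hw : Q w), ψ' w = ψ ⟨w, hw⟩ := fun w hw => by simp [ψ', hw]
  have hψ'2 : ∀ w, ¬ Q w → ψ' w = 0 := fun w hw => by simp [ψ', hw]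
  let Φ : (B →₀ ℤ) × G →+ G :=
    (Finsupp.linearCombination ℤ b).toAddMonoidHom.coprod (nsmulAddMonoidHom (p ^ (k + 1)))
  let Ψ : (B →₀ ℤ) × G →+ (X → T) :=
    (Finsupp.linearCombination ℤ ψ').toAddMonoidHom.comp (AddMonoidHom.fst _ _)
  have hΦ : ∀ c g, Φ (c, g) = Finsupp.linearCombination ℤ b c + p ^ (k + 1) • g := by
    intro c g; simp [Φ]
  have hΨ : ∀ c g, Ψ (c, g) = Finsupp.linearCombination ℤ ψ' c := by
    intro c g; simp [Ψ]
  have hdiv : ∀ (w : B) (n : ℤ), Q w → ((p ^ (κ w + 1) : ℕ) : ℤ) ∣ n → n • ψ' w = 0 := by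
    intro w n hw hn
    obtain ⟨m, rfl⟩ := hn
    rw [hψ' w hw, mul_comm, mul_smul, Nat.cast_smul_eq_nsmul ℤ, hψ0 ⟨w, hw⟩, smul_zero]
  obtain ⟨j, hj⟩ := exists_ext Φ Ψ (by
    rintro ⟨c, g⟩ h0
    rw [hΦ] at h0
    rw [hΨ, Finsupp.linearCombination_apply]
    apply Finset.sum_eq_zero
    intro w _
    by_cases hw : Q w
    · apply hdiv w _ hw
      have h1 := hht c (k + 1) hk ⟨-g, by
        rw [← Finsupp.linearCombination_apply, smul_neg]
        exact eq_neg_of_add_eq_zero_left h0⟩ w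
      have h2 : min (k + 1) (κ w + 1) = κ w + 1 := min_eq_right (by have := hw.1; omega)
      rwa [h2] at h1
    · show c w • ψ' w = 0
      rw [hψ'2 w hw, smul_zero])
  have hjb : ∀ w, j (b w) = ψ' w := by
    intro w
    have := hj (Finsupp.single w 1, 0)
    rw [hΦ, hΨ] at this
    simpa using this
  have hjn : ∀ x, p ^ (k + 1) • j x = 0 := by
    intro x
    have := hj (0, x)
    rw [hΦ, hΨ] at this
    rw [← map_nsmul]
    simpa using this
  refine ⟨{ X := X, j := j, Ξ := Ξ, S := fun ξ t => b (e0 (s ξ t)).1, cont := ?_, hit := ?_ },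
    ?_, ?_, ?_, ?_⟩
  · intro ξ a
    have h1 := hψc ξ a
    have h2 : (fun t => j (b (e0 (s ξ t)).1) a) = fun t => ψ (e0 (s ξ t)) a := by
      funext t
      rw [hjb, hψ' _ (e0 (s ξ t)).2]
    rw [h2]; exact h1
  · intro A hA x
    obtain ⟨ξ, hξ⟩ := hψh A hA (fun m => j (x m)) (fun m a => congrFun (hjn (x m)) a)
    refine ⟨ξ, fun m => ?_⟩
    obtain ⟨t, ht⟩ := hξ m
    refine ⟨t, fun a ha => ?_⟩
    rw [← ht a ha, hjb, hψ' _ (e0 (s ξ t)).2]
  · intro ξ t
    exact ⟨(e0 (s ξ t)).1, (s ξ t).2, rfl⟩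
  · exact hjn
  · intro w hw
    show j (b w) = 0
    rw [hjb, hψ'2 w hw]
  · intro c hc w hw
    have h1 : (c.sum fun w n => n • j (b w)) = 0 := hc
    let c' : {w // Q w} →₀ ℤ := c.subtypeDomain Q
    have h2 : (c'.sum fun w n => n • ψ w) = 0 := by
      rw [← h1]
      have h3 : (c.sum fun w n => n • j (b w)) =
          ((c.filter Q).sum fun w n => n • j (b w)) := by
        rw [Finsupp.sum_filter_index, Finsupp.sum, Finsupp.support_filter]
        refine (Finset.sum_filter_of_ne ?_).symm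
        intro w _ hne
        by_contra hQ
        apply hne
        rw [hjb, hψ'2 w hQ, smul_zero]
      rw [h3]
      have h4 := Finsupp.sum_subtypeDomain_index (p := Q) (v := c.filter Q)
        (h := fun w n => n • j (b w)) (by
          intro w hw'
          rw [Finsupp.support_filter] at hw'
          exact (Finset.mem_filter.1 hw').2)
      rw [← h4]
      have h5 : (c.filter Q).subtypeDomain Q = c' := by
        ext w
        simp [c', w.2]
      rw [h5]
      apply Finsupp.sum_congr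
      intro w _
      rw [hjb, hψ' _ w.2]
    exact hψ1 c' h2 ⟨w, hw⟩

end Pool.Agent.H376R3.PC
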