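import Pool.Agent.H376R3.PC.TypeL

/-!
# Embeddings of groups with many independent elements into powers of the circle
-/

set_option autoImplicit false

universe u

namespace Pool.Agent.H376R3.PC

open Cardinal Topology

/-- maximal independent sets -/
def TaskPC6 : Prop := ∀ (E : Type u) [AddCommGroup E] (S0 : Set E),
  (∀ c : E →₀ ℤ, (↑c.support : Set E) ⊆ S0 → (c.sum fun x n => n • x) = 0 → ∀ x, c x • x = 0) →
  ∃ S : Set E, S0 ⊆ S ∧
    (∀ c : E →₀ ℤ, (↑c.support : Set E) ⊆ S → (c.sum fun x n => n • x) = 0 → ∀ x, c x • x = 0) ∧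
    ∀ x : E, x ≠ 0 → ∃ (n : ℤ) (c : E →₀ ℤ), n • x ≠ 0 ∧ (↑c.support : Set E) ⊆ S ∧
      n • x = c.sum fun x n => n • x

theorem type0_lemma (h6 : TaskPC6.{u}) {E M J : Type u} [AddCommGroup E] (e : M → E)
    (he : LinearIndependent ℤ e) (hJ : ℵ₁ ≤ #J) (hfam : InjFam J #M) (hc : 𝔠 ≤ #M)
    (hE : #E ≤ 2 ^ #J) :
    ∃ (X : Type u) (φ : E →+ (X → T)) (Ξ : Type u) (s : Ξ → (ℕ → Bool) → M),
      Function.Injective φ ∧ (∀ ξ a, Continuous fun t => φ (e (s ξ t)) a) ∧
      ∀ A : Set X, A.Countable → ∀ v : ℕ → X → T,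
        ∃ ξ, ∀ m, ∃ t, ∀ a ∈ A, φ (e (s ξ t)) a = v m a := by
  classical
  have he' := he.linearIndepOn_id
  rw [linearIndepOn_iff] at he'
  obtain ⟨S, hS0, hS1, hS2⟩ := h6 E (Set.range e) (by
    intro c hc1 hc2 x
    have := he' c ((Finsupp.mem_supported ℤ c).2 hc1) (by
      rw [Finsupp.linearCombination_apply]; exact hc2)
    rw [this]; simp)
  let e0 : M → S := fun m => ⟨e m, hS0 ⟨m, rfl⟩⟩
  have he0 : Function.Injective e0 := by
    intro m m' h
    have : e m = e m' := congrArg Subtype.val h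
    exact he.injective this
  have hr : ∀ m, addOrderOf ((e0 m : S) : E) = 0 := by
    intro m
    have h1 : (addOrderOf (e m) : ℤ) • e m = 0 := by
      rw [natCast_zsmul]; exact addOrderOf_nsmul_eq_zero _
    have h2 := linearIndependent_iff.1 he (Finsupp.single m (addOrderOf (e m) : ℤ)) (by
      rw [Finsupp.linearCombination_single]; exact h1)
    have h3 := DFunLike.congr_fun h2 m
    simpa using h3
  obtain ⟨X, ψ, Ξ, s, hψ0, hψ1, hψc, hψh⟩ := type_lemma (B := S) (M := M) (J := J) 0
    (fun w => addOrderOf (w : E)) e0 he0 hr hJ hfam hc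
    ((Cardinal.mk_le_of_injective Subtype.val_injective).trans hE)
  have hS1' : ∀ c : S →₀ ℤ, Finsupp.linearCombination ℤ (fun w : S => (w : E)) c = 0 →
      ∀ w, c w • (w : E) = 0 := by
    intro c hc w
    have h1 := hS1 (Finsupp.embDomain (Function.Embedding.subtype (· ∈ S)) c) (by
      rw [Finsupp.support_embDomain]
      intro x hx
      simp only [Finset.coe_map, Set.mem_image] at hx
      obtain ⟨y, -, rfl⟩ := hx
      exact y.2) (by
      rw [Finsupp.sum_embDomain]
      rw [Finsupp.linearCombination_apply] at hc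
      exact hc) (w : E)
    have h2 : (Finsupp.embDomain (Function.Embedding.subtype (· ∈ S)) c) (w : E) = c w :=
      Finsupp.embDomain_apply_self (Function.Embedding.subtype (· ∈ S)) c w
    rwa [h2] at h1
  have hker : ∀ c : S →₀ ℤ, Finsupp.linearCombination ℤ (fun w : S => (w : E)) c = 0 →
      Finsupp.linearCombination ℤ ψ c = 0 := by
    intro c hc
    rw [Finsupp.linearCombination_apply]
    apply Finset.sum_eq_zero
    intro w _
    have h1 := addOrderOf_dvd_iff_zsmul_eq_zero.2 (hS1' c hc w)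
    obtain ⟨k, hk⟩ := h1
    show c w • ψ w = 0
    rw [hk, mul_comm, mul_smul, Nat.cast_smul_eq_nsmul ℤ, hψ0, smul_zero]
  obtain ⟨φ, hφ⟩ := exists_ext
    (Finsupp.linearCombination ℤ (fun w : S => (w : E))).toAddMonoidHom
    (Finsupp.linearCombination ℤ ψ).toAddMonoidHom hker
  have hφ1 : ∀ w : S, φ (w : E) = ψ w := by
    intro w
    have := hφ (Finsupp.single w 1)
    simpa using this
  refine ⟨X, φ, Ξ, s, ?_, ?_, ?_⟩
  · rw [injective_iff_map_eq_zero]
    intro x hx
    by_contra hx0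
    obtain ⟨n, c, hn, hcS, hnc⟩ := hS2 x hx0
    apply hn
    -- restrict the combination to `S`
    let c' : S →₀ ℤ := c.subtypeDomain (· ∈ S)
    have h1 : Finsupp.linearCombination ℤ (fun w : S => (w : E)) c' = n • x := by
      rw [hnc, Finsupp.linearCombination_apply]
      exact Finsupp.sum_subtypeDomain_index (p := (· ∈ S)) (v := c) (h := fun x n => n • x)
        (fun x hx => hcS hx)
    have h2 : Finsupp.linearCombination ℤ ψ c' = 0 := by
      have := hφ c'
      have h3 : φ (n • x) = 0 := by rw [map_zsmul, hx, smul_zero]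
      rw [← h1] at h3
      exact this.symm.trans h3
    rw [← h1, Finsupp.linearCombination_apply]
    apply Finset.sum_eq_zero
    intro w _
    have h4 := hψ1 c' (by rw [Finsupp.linearCombination_apply] at h2; exact h2) w
    exact addOrderOf_dvd_iff_zsmul_eq_zero.1 h4
  · intro ξ a
    have := hψc ξ a
    have h2 : (fun t => φ (e (s ξ t)) a) = fun t => ψ (e0 (s ξ t)) a := by
      funext t
      exact congrFun (hφ1 (e0 (s ξ t))) a
    rw [h2]; exact this
  · intro A hA v
    obtain ⟨ξ, hξ⟩ := hψh A hA v (fun m a => by simp)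
    refine ⟨ξ, fun m => ?_⟩
    obtain ⟨t, ht⟩ := hξ m
    exact ⟨t, fun a ha => (congrFun (hφ1 (e0 (s ξ t))) a).trans (ht a ha)⟩

end Pool.Agent.H376R3.PC
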