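import Pool.Agent.H376R3.PC.Vec

/-!
# The basic construction: a family of independent vectors, some of which form compact sets
-/

set_option autoImplicit false

universe u

namespace Pool.Agent.H376R3.PC

open Cardinal Topology

theorem mk_LL {J : Type u} (hJ : ℵ₀ ≤ #J) : #(LL J) = #J := by
  have : Infinite (J ⊕ ℕ) := inferInstance
  have h1 : #(J ⊕ ℕ) = #J := by
    rw [Cardinal.mk_sum]
    simp only [Cardinal.lift_uzero, Cardinal.mk_nat, Cardinal.lift_aleph0]
    exact Cardinal.add_eq_left hJ hJ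
  rw [Cardinal.mk_prod, Cardinal.lift_id, Cardinal.mk_finset_of_infinite, h1]
  exact Cardinal.mul_eq_self hJ

theorem type_lemma {B M J : Type u} (n : ℕ) (r : B → ℕ) (e0 : M → B)
    (he0 : Function.Injective e0) (hr : ∀ m, r (e0 m) = n) (hJ : ℵ₁ ≤ #J)
    (hfam : InjFam J #M) (hc : 𝔠 ≤ #M) (hB : #B ≤ 2 ^ #J) :
    ∃ (X : Type u) (ψ : B → X → T) (Ξ : Type u) (s : Ξ → (ℕ → Bool) → M),
      (∀ w, r w • ψ w = 0) ∧
      (∀ c : B →₀ ℤ, (c.sum fun w k => k • ψ w) = 0 → ∀ w, (r w : ℤ) ∣ c w) ∧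
      (∀ ξ a, Continuous fun t => ψ (e0 (s ξ t)) a) ∧
      (∀ A : Set X, A.Countable → ∀ v : ℕ → X → T, (∀ m a, n • v m a = 0) →
        ∃ ξ, ∀ m, ∃ t, ∀ a ∈ A, ψ (e0 (s ξ t)) a = v m a) := by
  classical
  obtain ⟨Δ, d, hΔ, hd⟩ := hfam
  obtain ⟨W, _, hW, hWb⟩ := exists_omega1.{u}
  have hJ0 : ℵ₀ ≤ #J := (Cardinal.aleph0_le_aleph 1).trans hJ
  have hM0 : ℵ₀ ≤ #M := Cardinal.aleph0_le_continuum.trans hc
  have hX : #(W × LL J) = #J := by
    rw [Cardinal.mk_prod, Cardinal.lift_id, Cardinal.lift_id, mk_LL hJ0, hW]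
    exact Cardinal.mul_eq_right hJ0 hJ (Cardinal.aleph_pos 1).ne'
  obtain ⟨e⟩ := Cardinal.eq.1 hX
  have hΞ : #((Δ × W) × (ℕ → Bool)) ≤ #M := by
    rw [Cardinal.mk_prod, Cardinal.mk_prod]
    simp only [Cardinal.lift_id, Cardinal.lift_uzero]
    have h1 : Cardinal.lift.{u} #(ℕ → Bool) = 𝔠 := by simp
    rw [h1, hW]
    calc #Δ * ℵ₁ * 𝔠 ≤ #M * #M * #M := by
          gcongr
          exact Cardinal.aleph_one_le_continuum.trans hc
      _ = #M := by rw [Cardinal.mul_eq_self hM0, Cardinal.mul_eq_self hM0]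
  obtain ⟨g⟩ : Nonempty ((Δ × W) × (ℕ → Bool) ↪ M) := by
    have := hΞ
    rwa [Cardinal.le_def] at this
  have hMB : #M ≤ #B := Cardinal.mk_le_of_injective he0
  have hB0 : ℵ₀ ≤ #B := hM0.trans hMB
  have hΞ2 : #(Δ × W) ≤ #M := by
    rw [Cardinal.mk_prod]
    simp only [Cardinal.lift_id]
    rw [hW]
    calc #Δ * ℵ₁ ≤ #M * #M := by
          gcongr
          exact Cardinal.aleph_one_le_continuum.trans hc
      _ = #M := Cardinal.mul_eq_self hM0
  obtain ⟨ι⟩ : Nonempty (((Δ × W) ⊕ B) ↪ (J → Bool)) := by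
    rw [← Cardinal.le_def, Cardinal.mk_sum]
    simp only [Cardinal.lift_id]
    have h2 : #(J → Bool) = 2 ^ #J := by simp
    rw [h2]
    calc #(Δ × W) + #B ≤ #B + #B := by gcongr; exact hΞ2.trans hMB
      _ = #B := Cardinal.add_eq_self hB0
      _ ≤ _ := hB
  obtain ⟨q, hqc, hqn, hqs⟩ := exists_cantor n
  choose τ hτ1 hτ2 using exists_tau
  let G : (Δ × W) × (ℕ → Bool) → B := fun y => e0 (g y)
  have hG : Function.Injective G := he0.comp g.injective
  let code : B → (J ⊕ ℕ → Bool) := Function.extend G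
    (fun y => Sum.elim (ι (Sum.inl y.1)) y.2) (fun w => Sum.elim (ι (Sum.inr w)) (fun _ => false))
  have hcode1 : ∀ y, code (G y) = Sum.elim (ι (Sum.inl y.1)) y.2 := fun y => hG.extend_apply _ _ y
  have hcode2 : ∀ w, (¬ ∃ y, G y = w) → code w = Sum.elim (ι (Sum.inr w)) (fun _ => false) :=
    fun w hw => Function.extend_apply' _ _ _ hw
  have hcode : Function.Injective code := by
    intro w w' hww
    have hl : ∀ j, code w (Sum.inl j) = code w' (Sum.inl j) := fun j => by rw [hww]
    have hrr : ∀ j, code w (Sum.inr j) = code w' (Sum.inr j) := fun j => by rw [hww]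
    by_cases h1 : ∃ y, G y = w
    · obtain ⟨y, rfl⟩ := h1
      by_cases h2 : ∃ y, G y = w'
      · obtain ⟨y', rfl⟩ := h2
        simp only [hcode1, Sum.elim_inl, Sum.elim_inr] at hl hrr
        have h3 := ι.injective (funext hl)
        have h4 : y.1 = y'.1 := by simpa using h3
        have h5 : y.2 = y'.2 := funext hrr
        rw [Prod.ext h4 h5]
      · simp only [hcode1, hcode2 _ h2, Sum.elim_inl] at hl
        have h3 := ι.injective (funext hl)
        simp at h3
    · by_cases h2 : ∃ y, G y = w'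
      · obtain ⟨y', rfl⟩ := h2
        simp only [hcode1, hcode2 _ h1, Sum.elim_inl] at hl
        have h3 := ι.injective (funext hl)
        simp at h3
      · simp only [hcode2 _ h1, hcode2 _ h2, Sum.elim_inl] at hl
        have h3 := ι.injective (funext hl)
        simpa using h3
  let ψ : B → (W × LL J) → T := Function.extend G
    (fun y x => if x.1 < y.1.2 then q (fun i => y.2 (Nat.pair (d y.1.1 (e x)) i))
      else vec (code (G y)) (τ n) x.2) (fun w x => vec (code w) (τ (r w)) x.2)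
  have hψ1 : ∀ y, ψ (G y) = fun x => if x.1 < y.1.2 then
      q (fun i => y.2 (Nat.pair (d y.1.1 (e x)) i)) else vec (code (G y)) (τ n) x.2 :=
    fun y => hG.extend_apply _ _ y
  have hψ2 : ∀ w, (¬ ∃ y, G y = w) → ψ w = fun x => vec (code w) (τ (r w)) x.2 :=
    fun w hw => Function.extend_apply' _ _ _ hw
  have hrG : ∀ y, r (G y) = n := fun y => hr _
  obtain ⟨w00, -⟩ := hWb ∅ Set.countable_empty
  have hψ3 : ∀ w, ∃ α0 : W, ∀ x : W × LL J, ¬ (x.1 < α0) →
      ψ w x = vec (code w) (τ (r w)) x.2 := by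
    intro w
    by_cases h1 : ∃ y, G y = w
    · obtain ⟨y, rfl⟩ := h1
      refine ⟨y.1.2, fun x hx => ?_⟩
      rw [hψ1, hrG]
      simp only [hx, if_false]
    · exact ⟨w00, fun x _ => by rw [hψ2 w h1]⟩
  have hvec0 : ∀ (c : J ⊕ ℕ → Bool) (m : ℕ) (l : LL J), m • vec c (τ m) l = 0 := by
    intro c m l
    unfold vec
    split_ifs
    · exact hτ1 m
    · simp
  refine ⟨W × LL J, ψ, Δ × W, fun ξ t => g (ξ, t), ?_, ?_, ?_, ?_⟩
  · intro w
    by_cases h1 : ∃ y, G y = w
    · obtain ⟨y, rfl⟩ := h1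
      funext x
      rw [hψ1, hrG]
      simp only [Pi.smul_apply, Pi.zero_apply]
      split_ifs
      · exact hqn _
      · exact hvec0 _ _ _
    · funext x
      rw [hψ2 w h1]
      simp only [Pi.smul_apply, Pi.zero_apply]
      exact hvec0 _ _ _
  · intro c hcs w
    choose α hα using hψ3
    by_cases hw : w ∈ c.support
    swap
    · rw [Finsupp.notMem_support_iff.1 hw]; exact dvd_zero _
    obtain ⟨β, hβ⟩ := hWb (↑(c.support.image α)) (c.support.image α).countable_toSet
    obtain ⟨l, hl1, hl2⟩ := exists_isolate code hcode c.support w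
    have h1 := congrFun hcs (β, l)
    rw [Finsupp.sum, Finset.sum_apply, Finset.sum_eq_single w] at h1
    · simp only [Pi.smul_apply, Pi.zero_apply] at h1
      rw [hα w (β, l) (not_lt.2 (hβ _ (by exact_mod_cast Finset.mem_image_of_mem α hw)).le)] at h1
      simp only [vec, hl1, if_true] at h1
      exact hτ2 _ _ h1
    · intro w' hw' hne
      simp only [Pi.smul_apply]
      rw [hα w' (β, l) (not_lt.2 (hβ _ (by exact_mod_cast Finset.mem_image_of_mem α hw')).le)]
      simp only [vec, hl2 w' hw' hne, if_false, smul_zero]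
    · intro h; exact absurd hw h
  · intro ξ a
    have h1 : (fun t => ψ (e0 (g (ξ, t))) a) = fun t => if a.1 < ξ.2 then
        q (fun i => t (Nat.pair (d ξ.1 (e a)) i)) else vec (Sum.elim (ι (Sum.inl ξ)) t) (τ n) a.2 := by
      funext t
      have h2 := congrFun (hψ1 (ξ, t)) a
      rw [hcode1] at h2
      exact h2
    rw [h1]
    by_cases h2 : a.1 < ξ.2
    · simp only [h2, if_true]
      exact hqc.comp (by fun_prop)
    · simp only [h2, if_false]
      apply IsLocallyConstant.continuous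
      rw [IsLocallyConstant.iff_eventually_eq]
      intro t
      have h3 : ∀ b ∈ a.2.1, ∀ᶠ t' in 𝓝 t,
          Sum.elim (ι (Sum.inl ξ)) t' b = Sum.elim (ι (Sum.inl ξ)) t b := by
        intro b _
        rcases b with b | b
        · simp
        · have : Continuous fun t' : ℕ → Bool => t' b := continuous_apply b
          have h4 : ∀ᶠ t' in 𝓝 t, t' b ∈ ({t b} : Set Bool) :=
            (this.continuousAt (x := t)) (IsOpen.mem_nhds (isOpen_discrete _) (Set.mem_singleton _))
          filter_upwards [h4] with t' ht'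
          simpa using ht'
      have h5 := (Filter.eventually_all_finset a.2.1).2 h3
      filter_upwards [h5] with t' ht'
      have h6 : Mem (Sum.elim (ι (Sum.inl ξ)) t') a.2 ↔ Mem (Sum.elim (ι (Sum.inl ξ)) t) a.2 := by
        unfold Mem
        constructor
        · intro h b hb
          rw [← ht' b hb]; exact h b hb
        · intro h b hb
          rw [ht' b hb]; exact h b hb
      simp only [vec, h6]
  · intro A hA v hv
    obtain ⟨β, hβ⟩ := hWb (Prod.fst '' A) (hA.image _)
    obtain ⟨δ, hδ⟩ := hd (e '' A) (hA.image _)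
    refine ⟨(δ, β), fun m => ?_⟩
    choose! z hz using fun (a : W × LL J) => hqs (v m a) (hv m a)
    let t : ℕ → Bool := fun k =>
      if h : ∃ a ∈ A, d δ (e a) = (Nat.unpair k).1 then z h.choose (Nat.unpair k).2 else false
    refine ⟨t, fun a ha => ?_⟩
    have h2 := congrFun (hψ1 ((δ, β), t)) a
    have h3 : a.1 < β := hβ _ ⟨a, ha, rfl⟩
    have h4 : ψ (e0 (g ((δ, β), t))) a = q (fun i => t (Nat.pair (d δ (e a)) i)) := by
      refine h2.trans ?_
      simp only [h3, if_true]
    rw [h4, ← hz a]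
    congr 1
    funext i
    have h5 : ∃ a' ∈ A, d δ (e a') = (Nat.unpair (Nat.pair (d δ (e a)) i)).1 :=
      ⟨a, ha, by simp⟩
    simp only [t]
    rw [dif_pos h5]
    have h6 := h5.choose_spec
    have h7 : h5.choose = a := by
      have h8 := hδ (Set.mem_image_of_mem e h6.1) (Set.mem_image_of_mem e ha)
        (by rw [h6.2]; simp)
      exact e.injective h8
    rw [h7]
    simp

end Pool.Agent.H376R3.PC
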