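import Pool.Agent.H376R3.PC.Ext

/-!
# Independent vectors in powers of the circle
-/

set_option autoImplicit false

universe u

namespace Pool.Agent.H376R3.PC

open Cardinal Topology

/-- the coordinates: finite conditions on codes -/
abbrev LL (J : Type u) : Type u := Finset (J ⊕ ℕ) × Finset (J ⊕ ℕ)

/-- the code `c` satisfies the finite condition `l` -/
def Mem {J : Type u} (c : J ⊕ ℕ → Bool) (l : LL J) : Prop :=
  ∀ a ∈ l.1, (c a = true ↔ a ∈ l.2)

/-- the vector with code `c` and value `τ` -/
noncomputable def vec {J : Type u} (c : J ⊕ ℕ → Bool) (τ : T) (l : LL J) : T := by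
  classical exact if Mem c l then τ else 0

/-- A finite set of codes: any of them can be isolated. -/
theorem exists_isolate {J : Type u} {B : Type*} (code : B → (J ⊕ ℕ → Bool))
    (hc : Function.Injective code) (s : Finset B) (w : B) :
    ∃ l : LL J, Mem (code w) l ∧ ∀ w' ∈ s, w' ≠ w → ¬ Mem (code w') l := by
  classical
  have key : ∀ w' : B, w' ≠ w → ∃ a, code w' a ≠ code w a := by
    intro w' h
    by_contra hcon
    push Not at hcon
    exact h (hc (funext hcon))
  choose! f hf using key
  refine ⟨((s.erase w).image f, ((s.erase w).image f).filter fun a => code w a = true), ?_, ?_⟩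
  · intro a ha
    simp only [Finset.mem_filter]
    exact ⟨fun h => ⟨ha, h⟩, fun h => h.2⟩
  · intro w' hw' hne hm
    have ha : f w' ∈ (s.erase w).image f :=
      Finset.mem_image_of_mem f (Finset.mem_erase.2 ⟨hne, hw'⟩)
    have h1 := hm (f w') ha
    simp only [Finset.mem_filter] at h1
    apply hf w' hne
    have h2 : (code w' (f w') = true ↔ code w (f w') = true) :=
      ⟨fun h => (h1.1 h).2, fun h => h1.2 ⟨ha, h⟩⟩
    cases h3 : code w' (f w') <;> cases h4 : code w (f w') <;> simp_all

/-- A well-ordered index set of size `ℵ₁` all of whose countable subsets are bounded. -/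
theorem exists_omega1 : ∃ (W : Type u) (_ : LinearOrder W), #W = ℵ₁ ∧
    ∀ A : Set W, A.Countable → ∃ w, ∀ a ∈ A, a < w := by
  refine ⟨(Ordinal.omega 1 : Ordinal.{u}).ToType, inferInstance, ?_, ?_⟩
  · simp
  · intro A hA
    have := hA.to_subtype
    let g : A → Ordinal.{u} := fun a => Order.succ (Ordinal.ToType.toOrd a.1 : Ordinal.{u})
    have h1 : ⨆ a, g a < Ordinal.omega 1 := by
      apply Ordinal.iSup_lt_omega_one
      intro a
      have h2 : (Ordinal.ToType.toOrd a.1 : Ordinal.{u}) < Ordinal.omega 1 :=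
        (Ordinal.ToType.toOrd a.1).2
      exact (Cardinal.isSuccLimit_omega 1).succ_lt h2
    refine ⟨Ordinal.ToType.mk ⟨_, h1⟩, ?_⟩
    intro a ha
    have h3 : (Ordinal.ToType.toOrd a : Ordinal.{u}) < ⨆ a, g a := by
      refine lt_of_lt_of_le (Order.lt_succ _) ?_
      exact Ordinal.le_iSup g ⟨a, ha⟩
    have h4 : Ordinal.ToType.mk (Ordinal.ToType.toOrd a) < Ordinal.ToType.mk ⟨_, h1⟩ :=
      Ordinal.ToType.mk.lt_iff_lt.2 h3
    simpa using h4

end Pool.Agent.H376R3.PC
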