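import Pool.Agent.H376R3.PC.Type0

/-!
# Maximal independent sets in abelian groups
-/

set_option autoImplicit false

universe u

namespace Pool.Agent.H376R3.PC

open Cardinal Topology

theorem pc6 : TaskPC6.{u} := by
  intro E _ S0 h0
  classical
  let Ind : Set E → Prop := fun S =>
    ∀ c : E →₀ ℤ, (↑c.support : Set E) ⊆ S → (c.sum fun x n => n • x) = 0 → ∀ x, c x • x = 0
  obtain ⟨S, hS0, hS⟩ : ∃ S, S0 ⊆ S ∧ Maximal (fun S => S0 ⊆ S ∧ Ind S) S := by
    have := zorn_subset_nonempty {S : Set E | S0 ⊆ S ∧ Ind S} (by
      intro C hC hch hne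
      refine ⟨⋃₀ C, ⟨?_, ?_⟩, fun s hs => Set.subset_sUnion_of_mem hs⟩
      · obtain ⟨s, hs⟩ := hne
        exact (hC hs).1.trans (Set.subset_sUnion_of_mem hs)
      · intro c hc hsum
        obtain ⟨s, hs, hcs⟩ := DirectedOn.exists_mem_subset_of_finset_subset_biUnion
          (c := C) (f := id) hne (hch.directedOn) (s := c.support) (by
            rw [Set.sUnion_eq_biUnion] at hc; exact hc)
        exact (hC hs).2 c hcs hsum) S0 ⟨subset_rfl, h0⟩
    obtain ⟨m, hm1, hm2⟩ := this
    exact ⟨m, hm1, hm2⟩
  refine ⟨S, hS0, hS.1.2, ?_⟩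
  intro x hx
  by_contra hcon
  push Not at hcon
  have hxS : x ∉ S := by
    intro hxS
    refine hcon 1 (Finsupp.single x 1) (by simpa using hx) ?_ ?_
    · intro y hy
      have := Finsupp.support_single_subset hy
      rw [Finset.mem_singleton] at this
      rw [this]; exact hxS
    · rw [Finsupp.sum_single_index] <;> simp
  have hins : S0 ⊆ insert x S ∧ Ind (insert x S) := by
    refine ⟨hS0.trans (Set.subset_insert _ _), ?_⟩
    intro c hc hsum
    -- split off `x`
    have hsplit : (c.sum fun y n => n • y) = c x • x + ((c.erase x).sum fun y n => n • y) := by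
      rw [← Finsupp.add_sum_erase' c x (fun y n => n • y) (by simp)]
    have hce : (↑(c.erase x).support : Set E) ⊆ S := by
      intro y hy
      simp only [Finsupp.support_erase, Finset.coe_erase, Set.mem_diff, Finset.mem_coe,
        Set.mem_singleton_iff] at hy
      rcases hc hy.1 with h | h
      · exact absurd h hy.2
      · exact h
    have hx0 : c x • x = 0 := by
      by_contra hne
      refine hcon (c x) (-(c.erase x)) hne ?_ ?_
      · rw [Finsupp.support_neg]; exact hce
      · rw [Finsupp.sum_neg_index (by simp)]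
        have h1 : c x • x = -((c.erase x).sum fun y n => n • y) := by
          rw [hsplit] at hsum
          exact eq_neg_of_add_eq_zero_left hsum
        rw [h1, Finsupp.sum, Finsupp.sum, ← Finset.sum_neg_distrib]
        apply Finset.sum_congr rfl
        intro y _
        simp
    intro y
    by_cases hy : y = x
    · rw [hy]; exact hx0
    · have h2 := hS.1.2 (c.erase x) hce (by
        rw [hsplit, hx0, zero_add] at hsum; exact hsum) y
      rwa [Finsupp.erase_ne hy] at h2
  have := hS.2 hins (Set.subset_insert _ _) (Set.mem_insert x S)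
  exact hxS this

end Pool.Agent.H376R3.PC
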